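import Mathlib

set_option autoImplicit false

namespace Pool.Agent.Helper93.Transp

open Finset Equiv

variable {n : ℕ}

/-- Pairs of positions `i < j`. -/
def P (n : ℕ) : Finset (Fin n × Fin n) := univ.filter (fun t => t.1 < t.2)

lemma mem_P {t : Fin n × Fin n} : t ∈ P n ↔ t.1 < t.2 := by
  simp [P]

/-- The number of ordered pairs `(σ, σ·(i j))`, `i < j`, with `σ ∈ A` and `σ·(i j) ∈ B`. -/
def cr (A B : Finset (Perm (Fin n))) : ℕ :=
  ∑ σ ∈ A, ((P n).filter (fun t => σ * swap t.1 t.2 ∈ B)).card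

lemma cr_eq_sum (A B : Finset (Perm (Fin n))) :
    cr A B = ∑ t ∈ P n, (A.filter (fun σ => σ * swap t.1 t.2 ∈ B)).card := by
  unfold cr
  simp only [card_filter]
  rw [sum_comm]

lemma cr_comm (A B : Finset (Perm (Fin n))) : cr A B = cr B A := by
  rw [cr_eq_sum, cr_eq_sum]
  refine sum_congr rfl fun t _ => ?_
  refine card_bij' (fun σ _ => σ * swap t.1 t.2) (fun σ _ => σ * swap t.1 t.2) ?_ ?_ ?_ ?_
  · intro σ hσ
    simp only [mem_filter] at hσ ⊢
    refine ⟨hσ.2, ?_⟩
    simpa [mul_assoc] using hσ.1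
  · intro σ hσ
    simp only [mem_filter] at hσ ⊢
    refine ⟨hσ.2, ?_⟩
    simpa [mul_assoc] using hσ.1
  · intro σ _
    simp [mul_assoc]
  · intro σ _
    simp [mul_assoc]

lemma cr_union_left {A A' : Finset (Perm (Fin n))} (B : Finset (Perm (Fin n)))
    (h : Disjoint A A') : cr (A ∪ A') B = cr A B + cr A' B := by
  unfold cr
  rw [sum_union h]

lemma cr_union_right {A A' : Finset (Perm (Fin n))} (B : Finset (Perm (Fin n)))
    (h : Disjoint A A') : cr B (A ∪ A') = cr B A + cr B A' := by
  rw [cr_comm, cr_union_left B h, cr_comm A, cr_comm A']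

lemma cr_self_union {X Y : Finset (Perm (Fin n))} (h : Disjoint X Y) :
    cr (X ∪ Y) (X ∪ Y) = cr X X + cr Y Y + 2 * cr Y X := by
  rw [cr_union_left _ h, cr_union_right _ h, cr_union_right _ h, cr_comm X Y]
  ring

lemma swap_pair_eq {a b c d : Fin n} (h1 : a < b) (h2 : c < d) (h : swap a b = swap c d) :
    (a, b) = (c, d) := by
  have ha : swap a b a = swap c d a := by rw [h]
  have hb : swap a b b = swap c d b := by rw [h]
  rw [swap_apply_left] at ha
  rw [swap_apply_right] at hb
  simp only [swap_apply_def] at ha hb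
  have := h1.ne
  have := h2.ne
  split_ifs at ha hb <;> first
    | (subst_vars; rfl)
    | (exfalso; subst_vars; omega)

/-- each permutation with `σ p ≠ i` has at most one neighbour with `π p = i` -/
lemma deg_le_one {σ : Perm (Fin n)} {p i : Fin n} (h : σ p ≠ i) :
    ((P n).filter (fun t => (σ * swap t.1 t.2) p = i)).card ≤ 1 := by
  rw [card_le_one]
  have key : ∀ t ∈ (P n).filter (fun t => (σ * swap t.1 t.2) p = i),
      swap t.1 t.2 = swap p (σ.symm i) := by
    intro t ht
    rw [mem_filter, mem_P] at ht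
    obtain ⟨_, h2⟩ := ht
    rw [Perm.mul_apply] at h2
    have h3 : swap t.1 t.2 p = σ.symm i := by
      rw [← h2]; simp
    rcases eq_or_ne p t.1 with h4 | h4
    · subst h4
      rw [swap_apply_left] at h3
      rw [h3]
    · rcases eq_or_ne p t.2 with h5 | h5
      · rw [h5, swap_apply_right] at h3
        rw [h3, h5, swap_comm]
      · rw [swap_apply_of_ne_of_ne h4 h5] at h2
        exact absurd h2 h
  intro t ht u hu
  have h1 := key t ht
  have h2 := key u hu
  have h3 : t.1 < t.2 := by
    simp only [mem_filter, mem_P] at ht; exact ht.1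
  have h4 : u.1 < u.2 := by
    simp only [mem_filter, mem_P] at hu; exact hu.1
  exact swap_pair_eq h3 h4 (h1.trans h2.symm)

lemma cr_le_card {B C : Finset (Perm (Fin n))} {p i : Fin n} (hB : ∀ σ ∈ B, σ p ≠ i)
    (hC : ∀ π ∈ C, π p = i) : cr B C ≤ B.card := by
  unfold cr
  calc ∑ σ ∈ B, ((P n).filter (fun t => σ * swap t.1 t.2 ∈ C)).card
      ≤ ∑ σ ∈ B, 1 := by
        refine sum_le_sum fun σ hσ => ?_
        refine le_trans (card_le_card ?_) (deg_le_one (hB σ hσ))
        intro t ht
        simp only [mem_filter] at ht ⊢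
        exact ⟨ht.1, hC _ ht.2⟩
    _ = B.card := by simp

lemma cr_self_le (A : Finset (Perm (Fin n))) : cr A A + A.card ≤ A.card ^ 2 := by
  have h : cr A A ≤ ∑ σ ∈ A, (A.card - 1) := by
    unfold cr
    refine sum_le_sum fun σ hσ => ?_
    rw [← card_erase_of_mem hσ]
    refine card_le_card_of_injOn (fun t => σ * swap t.1 t.2) ?_ ?_
    · intro t ht
      simp only [coe_filter, Set.mem_ofPred_eq, mem_P] at ht
      simp only [coe_erase, Set.mem_sdiff, mem_coe, Set.mem_singleton_iff]
      refine ⟨ht.2, ?_⟩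
      intro h
      have h2 : swap t.1 t.2 = 1 := by
        simpa using h
      rw [swap_eq_one_iff] at h2
      exact ht.1.ne h2
    · intro t ht u hu htu
      simp only [coe_filter, Set.mem_ofPred_eq, mem_P] at ht hu
      have h2 : swap t.1 t.2 = swap u.1 u.2 := by
        simpa using htu
      exact swap_pair_eq ht.1 hu.1 h2
  rw [sum_const, smul_eq_mul] at h
  rcases Nat.eq_zero_or_pos A.card with h0 | h0
  · rw [h0] at h ⊢
    simpa using h
  · calc cr A A + A.card ≤ A.card * (A.card - 1) + A.card := by omega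
      _ = A.card ^ 2 := by
        obtain ⟨c, hc⟩ := Nat.exists_eq_add_of_lt h0
        rw [hc]
        simp
        ring

/-- the cell of `A` at position `p` and value `i` -/
def cell (A : Finset (Perm (Fin n))) (p i : Fin n) : Finset (Perm (Fin n)) :=
  A.filter (fun σ => σ p = i)

lemma mem_cell {A : Finset (Perm (Fin n))} {p i : Fin n} {σ : Perm (Fin n)} :
    σ ∈ cell A p i ↔ σ ∈ A ∧ σ p = i := by
  simp [cell]

lemma sum_cell_cr (A : Finset (Perm (Fin n))) (p : Fin n) :
    ∑ i, cr (cell A p i) (cell A p i)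
      = ∑ σ ∈ A, ((P n).filter (fun t => σ * swap t.1 t.2 ∈ A ∧
          (σ * swap t.1 t.2) p = σ p)).card := by
  unfold cr
  rw [← sum_fiberwise A (fun σ => σ p)]
  refine sum_congr rfl fun i _ => ?_
  unfold cell
  refine sum_congr rfl fun σ hσ => ?_
  rw [mem_filter] at hσ
  congr 1
  refine filter_congr fun t _ => ?_
  rw [mem_filter, hσ.2]

/-- double counting of internal edges by the positions at which both endpoints agree -/
lemma averaging (A : Finset (Perm (Fin n))) (N : Finset (Fin n))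
    (hN : ∀ σ ∈ A, ∀ t ∈ P n, σ * swap t.1 t.2 ∈ A → t.1 ∈ N ∧ t.2 ∈ N) :
    ∑ p ∈ N, ∑ i, cr (cell A p i) (cell A p i) + 2 * cr A A = N.card * cr A A := by
  simp only [sum_cell_cr]
  rw [sum_comm]
  unfold cr
  rw [mul_sum, mul_sum, ← sum_add_distrib]
  refine sum_congr rfl fun σ hσ => ?_
  have h1 : ∑ p ∈ N, ((P n).filter (fun t => σ * swap t.1 t.2 ∈ A ∧
          (σ * swap t.1 t.2) p = σ p)).card
      = ∑ t ∈ (P n).filter (fun t => σ * swap t.1 t.2 ∈ A),
          (N.filter (fun p => (σ * swap t.1 t.2) p = σ p)).card := by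
    simp only [card_filter, sum_filter]
    rw [sum_comm]
    refine sum_congr rfl fun t _ => ?_
    split_ifs with h
    · refine sum_congr rfl fun p _ => ?_
      simp [h]
    · refine sum_eq_zero fun p _ => ?_
      simp [h]
  rw [h1]
  have h2 : ∀ t ∈ (P n).filter (fun t => σ * swap t.1 t.2 ∈ A),
      (N.filter (fun p => (σ * swap t.1 t.2) p = σ p)).card + 2 = N.card := by
    intro t ht
    rw [mem_filter] at ht
    obtain ⟨ha, hb⟩ := hN σ hσ t ht.1 ht.2
    have hlt := mem_P.1 ht.1
    have h3 : N.filter (fun p => (σ * swap t.1 t.2) p = σ p) = (N.erase t.1).erase t.2 := by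
      ext p
      rw [mem_filter, mem_erase, mem_erase, Perm.mul_apply, σ.injective.eq_iff]
      constructor
      · rintro ⟨hp, h4⟩
        refine ⟨?_, ?_, hp⟩
        · rintro rfl
          rw [swap_apply_right] at h4
          exact hlt.ne h4
        · rintro rfl
          rw [swap_apply_left] at h4
          exact hlt.ne h4.symm
      · rintro ⟨h4, h5, hp⟩
        exact ⟨hp, swap_apply_of_ne_of_ne h5 h4⟩
    rw [h3, card_erase_of_mem, card_erase_of_mem ha]
    · have : 2 ≤ N.card := by
        rw [← card_pair hlt.ne]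
        refine card_le_card ?_
        intro x hx
        rw [mem_insert, mem_singleton] at hx
        rcases hx with rfl | rfl
        · exact ha
        · exact hb
      omega
    · rw [mem_erase]
      exact ⟨hlt.ne', hb⟩
  have h4 : ∑ t ∈ (P n).filter (fun t => σ * swap t.1 t.2 ∈ A),
          (N.filter (fun p => (σ * swap t.1 t.2) p = σ p)).card
        + 2 * ((P n).filter (fun t => σ * swap t.1 t.2 ∈ A)).card
      = ∑ t ∈ (P n).filter (fun t => σ * swap t.1 t.2 ∈ A),
          ((N.filter (fun p => (σ * swap t.1 t.2) p = σ p)).card + 2) := by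
    rw [sum_add_distrib, sum_const, smul_eq_mul]
    ring
  rw [h4, sum_congr rfl h2, sum_const, smul_eq_mul, mul_comm]

/-- the permutations agreeing with `σ₀` off `N` -/
def coset (σ₀ : Perm (Fin n)) (N : Finset (Fin n)) : Finset (Perm (Fin n)) :=
  univ.filter (fun σ => ∀ p, p ∉ N → σ p = σ₀ p)

lemma mem_coset {σ₀ σ : Perm (Fin n)} {N : Finset (Fin n)} :
    σ ∈ coset σ₀ N ↔ ∀ p, p ∉ N → σ p = σ₀ p := by
  simp [coset]

lemma card_coset (σ₀ : Perm (Fin n)) (N : Finset (Fin n)) :
    (coset σ₀ N).card = N.card.factorial := by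
  have h1 : (coset σ₀ N).card
      = Fintype.card {f : Perm (Fin n) // ∀ a, ¬ (a ∈ N) → f a = a} := by
    rw [Fintype.card_subtype]
    refine card_bij' (fun σ _ => σ₀⁻¹ * σ) (fun σ _ => σ₀ * σ) ?_ ?_ ?_ ?_
    · intro σ hσ
      rw [mem_coset] at hσ
      simp only [mem_filter, mem_univ, true_and]
      intro a ha
      rw [Perm.mul_apply, hσ a ha]
      simp
    · intro σ hσ
      simp only [mem_filter, mem_univ, true_and] at hσ
      rw [mem_coset]
      intro a ha
      rw [Perm.mul_apply, hσ a ha]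
    · intro σ _
      simp
    · intro σ _
      simp
  rw [h1, ← Fintype.card_congr (Perm.subtypeEquivSubtypePerm (fun a => a ∈ N)),
    Fintype.card_perm]
  simp

lemma card_pairs (N : Finset (Fin n)) :
    ((P n).filter (fun t => t.1 ∈ N ∧ t.2 ∈ N)).card = N.card.choose 2 := by
  have h1 : N.offDiag.card = 2 * ((P n).filter (fun t => t.1 ∈ N ∧ t.2 ∈ N)).card := by
    have h2 : N.offDiag = (P n).filter (fun t => t.1 ∈ N ∧ t.2 ∈ N) ∪
        ((P n).filter (fun t => t.1 ∈ N ∧ t.2 ∈ N)).image Prod.swap := by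
      ext ⟨a, b⟩
      simp only [mem_offDiag, mem_union, mem_filter, mem_P, mem_image, Prod.exists,
        Prod.swap_prod_mk, Prod.mk.injEq]
      constructor
      · rintro ⟨ha, hb, hab⟩
        rcases lt_or_gt_of_ne hab with h | h
        · left; exact ⟨h, ha, hb⟩
        · right; exact ⟨b, a, ⟨h, hb, ha⟩, rfl, rfl⟩
      · rintro (⟨h, ha, hb⟩ | ⟨c, d, ⟨h, hc, hd⟩, rfl, rfl⟩)
        · exact ⟨ha, hb, h.ne⟩
        · exact ⟨hd, hc, h.ne'⟩
    have h3 : Disjoint ((P n).filter (fun t => t.1 ∈ N ∧ t.2 ∈ N))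
        (((P n).filter (fun t => t.1 ∈ N ∧ t.2 ∈ N)).image Prod.swap) := by
      rw [disjoint_left]
      rintro ⟨a, b⟩ h4 h5
      simp only [mem_filter, mem_P, mem_image, Prod.exists,
        Prod.swap_prod_mk, Prod.mk.injEq] at h4 h5
      obtain ⟨c, d, ⟨h, _⟩, rfl, rfl⟩ := h5
      exact absurd h4.1 (not_lt.2 h.le)
    rw [h2, card_union_of_disjoint h3, card_image_of_injective _ Prod.swap_injective]
    ring
  rw [offDiag_card] at h1
  rw [Nat.choose_two_right]
  have : N.card * (N.card - 1) = N.card * N.card - N.card := by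
    rw [Nat.mul_sub, mul_one]
  omega

lemma coset_regular {σ₀ σ : Perm (Fin n)} {N : Finset (Fin n)} (hσ : σ ∈ coset σ₀ N) :
    ((P n).filter (fun t => σ * swap t.1 t.2 ∈ coset σ₀ N)).card = N.card.choose 2 := by
  rw [← card_pairs]
  congr 1
  refine filter_congr fun t ht => ?_
  rw [mem_P] at ht
  rw [mem_coset] at hσ ⊢
  constructor
  · intro h
    constructor
    · by_contra hc
      have h1 := h _ hc
      rw [Perm.mul_apply, swap_apply_left, ← hσ _ hc] at h1
      exact ht.ne' (σ.injective h1)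
    · by_contra hc
      have h1 := h _ hc
      rw [Perm.mul_apply, swap_apply_right, ← hσ _ hc] at h1
      exact ht.ne (σ.injective h1)
  · rintro ⟨ha, hb⟩ p hp
    have h1 : p ≠ t.1 := fun h => hp (h ▸ ha)
    have h2 : p ≠ t.2 := fun h => hp (h ▸ hb)
    rw [Perm.mul_apply, swap_apply_of_ne_of_ne h1 h2, hσ p hp]

lemma cr_coset {σ₀ : Perm (Fin n)} {N : Finset (Fin n)} {A : Finset (Perm (Fin n))}
    (hA : A ⊆ coset σ₀ N) : cr A (coset σ₀ N) = N.card.choose 2 * A.card := by
  unfold cr
  rw [sum_congr rfl fun σ hσ => coset_regular (hA hσ), sum_const, smul_eq_mul, mul_comm]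

end Pool.Agent.Helper93.Transp
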