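import Pool.Agent.Helper93.TranspLex

set_option autoImplicit false

namespace Pool.Agent.Helper93.Transp

open Finset Equiv

variable {n : ℕ}

/-- left multiplication by the order reversal `i ↦ n-1-i` -/
def flip (σ : Perm (Fin n)) : Perm (Fin n) := Fin.revPerm * σ

lemma flip_flip (σ : Perm (Fin n)) : flip (flip σ) = σ := by
  ext i
  simp [flip, Perm.mul_apply]

lemma flip_mul (σ τ : Perm (Fin n)) : flip (σ * τ) = flip σ * τ := by
  simp [flip, mul_assoc]

lemma flip_apply (σ : Perm (Fin n)) (i : Fin n) : flip σ i = Fin.rev (σ i) := by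
  simp [flip, Perm.mul_apply]

lemma flip_inj {σ τ : Perm (Fin n)} : flip σ = flip τ ↔ σ = τ := by
  constructor
  · intro h
    rw [← flip_flip σ, h, flip_flip]
  · rintro rfl; rfl

lemma lt_flip {π σ : Perm (Fin n)} : lt (flip π) (flip σ) ↔ lt σ π := by
  unfold lt
  constructor
  · rintro ⟨j, h1, h2⟩
    refine ⟨j, fun i hi => ?_, ?_⟩
    · have := h1 i hi
      rw [flip_apply, flip_apply, Fin.rev_inj] at this
      exact this.symm
    · rw [flip_apply, flip_apply, Fin.rev_lt_rev] at h2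
      exact h2
  · rintro ⟨j, h1, h2⟩
    refine ⟨j, fun i hi => ?_, ?_⟩
    · rw [flip_apply, flip_apply, Fin.rev_inj]
      exact (h1 i hi).symm
    · rw [flip_apply, flip_apply, Fin.rev_lt_rev]
      exact h2

/-- the flipped set -/
def flipSet (A : Finset (Perm (Fin n))) : Finset (Perm (Fin n)) :=
  univ.filter (fun σ => flip σ ∈ A)

lemma mem_flipSet {A : Finset (Perm (Fin n))} {σ : Perm (Fin n)} :
    σ ∈ flipSet A ↔ flip σ ∈ A := by
  simp [flipSet]

lemma card_flipSet (A : Finset (Perm (Fin n))) : (flipSet A).card = A.card := by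
  refine card_bij' (fun σ _ => flip σ) (fun σ _ => flip σ) ?_ ?_ ?_ ?_
  · intro σ h; exact mem_flipSet.1 h
  · intro σ h; rw [mem_flipSet, flip_flip]; exact h
  · intro σ _; exact flip_flip σ
  · intro σ _; exact flip_flip σ

lemma bd_flipSet (A : Finset (Perm (Fin n))) : bd (flipSet A) = bd A := by
  unfold bd
  refine card_bij' (fun p _ => (flip p.1, p.2)) (fun p _ => (flip p.1, p.2)) ?_ ?_ ?_ ?_
  · rintro ⟨σ, i, j⟩ h
    simp only [mem_filter, mem_univ, true_and, mem_flipSet, flip_mul] at h ⊢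
    exact h
  · rintro ⟨σ, i, j⟩ h
    simp only [mem_filter, mem_univ, true_and, mem_flipSet, flip_mul, flip_flip] at h ⊢
    exact h
  · rintro ⟨σ, i, j⟩ _
    simp [flip_flip]
  · rintro ⟨σ, i, j⟩ _
    simp [flip_flip]

/-- the complement of the initial segment of size `n! - m` is the flipped initial segment
of size `m` -/
lemma seg_compl {S : Finset (Perm (Fin n))} {m : ℕ} (hS : ∀ σ ∈ S, ∀ π, lt π σ → π ∈ S)
    (hm : m + S.card = n.factorial) : seg n m = (flipSet S)ᶜ := by
  apply seg_eq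
  · intro σ hσ π hπ
    rw [mem_compl, mem_flipSet] at hσ ⊢
    intro hc
    exact hσ (hS _ hc _ (lt_flip.2 hπ))
  · rw [card_compl, card_flipSet, Fintype.card_perm, Fintype.card_fin]
    omega

lemma bound_bd (A : Finset (Perm (Fin n))) (k : ℕ) (hk : 1 ≤ k) :
    ((n.choose 2 : ℕ) : ℚ) * A.card - L k A.card ≤ bd A := by
  have h1 := main_bound A k hk
  have h2 := bd_add_cr A
  have h3 : (bd A : ℚ) + cr A A = (n.choose 2 : ℕ) * A.card := by exact_mod_cast h2
  linarith

lemma exact_core (A : Finset (Perm (Fin n))) (k a : ℕ) (hk : 1 ≤ k) (hkn : k < n)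
    (ha1 : 1 ≤ a) (ha : a ≤ k + 1)
    (hA : A.card = a * k.factorial) : ∃ T : Finset (Perm (Fin n)),
      (∀ σ ∈ T, ∀ π, lt π σ → π ∈ T) ∧ T.card = A.card ∧ bd T ≤ bd A := by
  have hq : n - k - 1 < n := by omega
  refine ⟨S ⟨n - k - 1, hq⟩ a, fun σ hσ π hπ => S_down hσ hπ, ?_, ?_⟩
  · rw [hA]
    exact card_S (by simp; omega) ha
  · have h1 := bound_bd A k hk
    have h2 := bd_add_cr (S (⟨n - k - 1, hq⟩ : Fin n) a)
    have hq2 : ((⟨n - k - 1, hq⟩ : Fin n) : ℕ) + k + 1 = n := by simp; omega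
    have h3 := cr_S hq2 ha ha1
    rw [card_S hq2 ha] at h2
    have h4 : (bd (S (⟨n - k - 1, hq⟩ : Fin n) a) : ℚ)
        + cr (S (⟨n - k - 1, hq⟩ : Fin n) a) (S (⟨n - k - 1, hq⟩ : Fin n) a)
        = (n.choose 2 : ℕ) * ((a * k.factorial : ℕ) : ℚ) := by exact_mod_cast h2
    rw [hA] at h1
    have h5 : (bd (S (⟨n - k - 1, hq⟩ : Fin n) a) : ℚ) ≤ bd A := by linarith
    exact_mod_cast h5

lemma bd_empty : bd (∅ : Finset (Perm (Fin n))) = 0 := by
  simp [bd]

lemma bd_univ : bd (univ : Finset (Perm (Fin n))) = 0 := by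
  simp [bd]

lemma seg_zero : seg n 0 = ∅ := by
  simp [seg]

lemma seg_full : seg n n.factorial = univ := by
  apply seg_eq
  · intro σ _ π _; exact mem_univ _
  · rw [card_univ, Fintype.card_perm, Fintype.card_fin]

theorem exact_sizes (A : Finset (Perm (Fin n))) (k a : ℕ) (ha : a ≤ k + 1)
    (hA : A.card = a * k.factorial ∨ A.card + a * k.factorial = n.factorial) :
    bd (seg n A.card) ≤ bd A := by
  have hAle : A.card ≤ n.factorial := by
    have := card_le_univ A
    rwa [Fintype.card_perm, Fintype.card_fin] at this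
  -- trivial sizes
  rcases Nat.eq_zero_or_pos A.card with h0 | h0
  · rw [h0, seg_zero, bd_empty]; exact Nat.zero_le _
  rcases hAle.eq_or_lt with hful | hlt
  · rw [hful, seg_full, bd_univ]; exact Nat.zero_le _
  -- now `0 < |A| < n!`
  have hkf := Nat.factorial_pos k
  have ha1 : 1 ≤ a := by
    rcases Nat.eq_zero_or_pos a with h | h
    · subst h
      rcases hA with h1 | h1 <;> omega
    · exact h
  have hkn : k < n := by
    by_contra hc
    push Not at hc
    have h1 := Nat.factorial_le hc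
    have h2 : k.factorial ≤ a * k.factorial := Nat.le_mul_of_pos_left _ ha1
    rcases hA with h3 | h3 <;> omega
  -- reduce to `1 ≤ k`
  obtain ⟨k', a', hk', hkn', ha1', ha', hkk⟩ : ∃ k' a' : ℕ, 1 ≤ k' ∧ k' < n ∧ 1 ≤ a' ∧
      a' ≤ k' + 1 ∧ a * k.factorial = a' * k'.factorial := by
    rcases Nat.eq_zero_or_pos k with hk | hk
    · subst hk
      have h1 : a = 1 := by omega
      subst h1
      refine ⟨1, 1, le_rfl, ?_, le_rfl, by omega, by simp⟩
      by_contra hc
      have h2 : n = 1 := by omega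
      subst h2
      rw [Nat.factorial_one] at hlt
      omega
    · exact ⟨k, a, hk, hkn, ha1, ha, rfl⟩
  rw [hkk] at hA
  rcases hA with h | h
  · obtain ⟨T, hT1, hT2, hT3⟩ := exact_core A k' a' hk' hkn' ha1' ha' h
    rw [seg_eq hT1 hT2]
    exact hT3
  · have hAc : (Aᶜ).card = a' * k'.factorial := by
      rw [card_compl, Fintype.card_perm, Fintype.card_fin]
      omega
    obtain ⟨T, hT1, hT2, hT3⟩ := exact_core Aᶜ k' a' hk' hkn' ha1' ha' hAc
    rw [seg_compl hT1 (by rw [hT2, hAc]; exact h), bd_compl, bd_flipSet, ← bd_compl A]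
    exact hT3

end Pool.Agent.Helper93.Transp
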