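import Pool.Agent.Helper93.Transp

set_option autoImplicit false

namespace Pool.Agent.Helper93.Transp

open Finset Equiv

variable {n : ℕ}

/-- `L k m = (C(k,2) - 1) m + m² / k!` -/
def L (k : ℕ) (m : ℚ) : ℚ := ((k.choose 2 : ℚ) - 1) * m + m ^ 2 / (k.factorial : ℚ)

lemma choose_succ_two (k : ℕ) : (((k + 1).choose 2 : ℕ) : ℚ) = (k.choose 2 : ℚ) + k := by
  rw [Nat.choose_succ_succ' k 1]
  push_cast
  simp
  ring

lemma fact_pos (k : ℕ) : (0 : ℚ) < (k.factorial : ℚ) := by
  exact_mod_cast Nat.factorial_pos k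

lemma L_succ (k : ℕ) (m : ℚ) :
    L (k + 1) m - L k m = m * k * (1 - m / ((k + 1).factorial : ℚ)) := by
  unfold L
  rw [choose_succ_two, Nat.factorial_succ]
  push_cast
  have h := fact_pos k
  have h2 : (0 : ℚ) < (k : ℚ) + 1 := by positivity
  field_simp
  ring

lemma L_mono_step (k : ℕ) (m : ℚ) (hm : 0 ≤ m) (h : m ≤ ((k + 1).factorial : ℚ)) :
    L k m ≤ L (k + 1) m := by
  have h1 := L_succ k m
  have h2 : 0 ≤ m * k * (1 - m / ((k + 1).factorial : ℚ)) := by
    have : m / ((k + 1).factorial : ℚ) ≤ 1 := by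
      rw [div_le_one (fact_pos _)]; exact h
    have h3 : 0 ≤ 1 - m / ((k + 1).factorial : ℚ) := by linarith
    positivity
  linarith

lemma L_anti_step (k : ℕ) (m : ℚ) (hm : 0 ≤ m) (h : ((k + 1).factorial : ℚ) ≤ m) :
    L (k + 1) m ≤ L k m := by
  have h1 := L_succ k m
  have h2 : m * k * (1 - m / ((k + 1).factorial : ℚ)) ≤ 0 := by
    have : 1 ≤ m / ((k + 1).factorial : ℚ) := by
      rw [one_le_div (fact_pos _)]; exact h
    have h3 : 1 - m / ((k + 1).factorial : ℚ) ≤ 0 := by linarith
    exact mul_nonpos_of_nonneg_of_nonpos (by positivity) h3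
  linarith

/-- the lower envelope of the parabolas `L k` -/
lemma L_best {K m : ℕ} (hK : 1 ≤ K) (h1 : K.factorial ≤ m ∨ K = 1)
    (h2 : m ≤ (K + 1).factorial) (k : ℕ) (hk : 1 ≤ k) : L K m ≤ L k m := by
  have hm : (0 : ℚ) ≤ (m : ℚ) := by positivity
  rcases le_total K k with h | h
  · induction k, h using Nat.le_induction with
    | base => exact le_rfl
    | succ j hj ih =>
      refine le_trans (ih (hK.trans hj)) (L_mono_step j m hm ?_)
      exact_mod_cast h2.trans (Nat.factorial_le (by omega))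
  · rcases h1 with h1 | h1
    · obtain ⟨d, rfl⟩ := Nat.exists_eq_add_of_le h
      clear h2 hK h
      induction d with
      | zero => exact le_rfl
      | succ d ih =>
        have h3 : (k + d).factorial ≤ m := (Nat.factorial_le (by omega)).trans h1
        refine le_trans ?_ (ih h3)
        have := L_anti_step (k + d) m hm (by exact_mod_cast h1)
        exact this
    · have : k = K := by omega
      rw [this]

lemma big_cell {k : ℕ} {X Y : Finset (Perm (Fin n))} (hd : Disjoint X Y)
    {p i : Fin n} (hX : ∀ σ ∈ X, σ p = i) (hY : ∀ σ ∈ Y, σ p ≠ i)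
    (hbig : k.factorial ≤ X.card)
    (ihX : (cr X X : ℚ) ≤ L k X.card) (ihY : (cr Y Y : ℚ) ≤ L k Y.card) :
    (cr (X ∪ Y) (X ∪ Y) : ℚ) ≤ L k (X ∪ Y).card := by
  rw [cr_self_union hd, card_union_of_disjoint hd]
  have h1 : (cr Y X : ℚ) ≤ Y.card := by exact_mod_cast cr_le_card hY hX
  push_cast
  unfold L at *
  have h2 : (k.factorial : ℚ) ≤ X.card := by exact_mod_cast hbig
  have h3 : 2 * (Y.card : ℚ) ≤ 2 * (X.card : ℚ) * Y.card / k.factorial := by
    rw [le_div_iff₀ (fact_pos k)]
    nlinarith [mul_le_mul_of_nonneg_left h2 (Nat.cast_nonneg (α := ℚ) Y.card)]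
  have h4 : ((X.card : ℚ) + Y.card) ^ 2 / k.factorial
      = (X.card : ℚ) ^ 2 / k.factorial + (Y.card : ℚ) ^ 2 / k.factorial
        + 2 * (X.card : ℚ) * Y.card / k.factorial := by ring
  rw [h4]
  linarith

/-- one peeling step -/
lemma peel_step {K : ℕ} {X Y : Finset (Perm (Fin n))} (hd : Disjoint X Y)
    {p i : Fin n} (hX : ∀ σ ∈ X, σ p = i) (hY : ∀ σ ∈ Y, σ p ≠ i)
    (ihX : (cr X X : ℚ) ≤ L K X.card) :
    (1 - (X.card : ℚ) / (K + 1).factorial) * (K * X.card - 2 * Y.card)
      ≤ (L (K + 1) (X ∪ Y).card - cr (X ∪ Y) (X ∪ Y)) - (L (K + 1) Y.card - cr Y Y) := by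
  rw [cr_self_union hd, card_union_of_disjoint hd]
  have h1 : (cr Y X : ℚ) ≤ Y.card := by exact_mod_cast cr_le_card hY hX
  push_cast
  unfold L at *
  have h2 : ((X.card : ℚ) + Y.card) ^ 2 / (K + 1).factorial
      = (X.card : ℚ) ^ 2 / (K + 1).factorial + (Y.card : ℚ) ^ 2 / (K + 1).factorial
        + 2 * (X.card : ℚ) * Y.card / (K + 1).factorial := by ring
  have h5 : (X.card : ℚ) ^ 2 / K.factorial = (K + 1) * (X.card : ℚ) ^ 2 / (K + 1).factorial := by
    rw [Nat.factorial_succ]
    push_cast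
    have := fact_pos K
    have h2 : (0 : ℚ) < (K : ℚ) + 1 := by positivity
    field_simp
  rw [h2, choose_succ_two]
  rw [h5] at ihX
  have h6 : (1 - (X.card : ℚ) / (K + 1).factorial) * (K * X.card - 2 * Y.card)
      = K * X.card - 2 * Y.card - K * (X.card : ℚ) ^ 2 / (K + 1).factorial
        + 2 * (X.card : ℚ) * Y.card / (K + 1).factorial := by ring
  rw [h6]
  have h7 : (K + 1) * (X.card : ℚ) ^ 2 / (K + 1).factorial
      = K * (X.card : ℚ) ^ 2 / (K + 1).factorial + (X.card : ℚ) ^ 2 / (K + 1).factorial := by ring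
  rw [h7] at ihX
  linarith

/-- Abel summation -/
lemma abel (w U : ℕ → ℚ) (hw : Antitone w) (hU : ∀ j, 0 ≤ U (j + 1)) (N : ℕ) :
    ∑ j ∈ range (N + 1), w j * (U j - U (j + 1)) + w N * U (N + 1) ≤ w 0 * U 0 := by
  induction N with
  | zero => simp; linarith
  | succ N ih =>
    rw [sum_range_succ]
    have h1 : (w (N + 1) - w N) * U (N + 1) ≤ 0 :=
      mul_nonpos_of_nonpos_of_nonneg (by linarith [hw (Nat.le_succ N)]) (hU N)
    linarith

lemma row_ineq {K : ℕ} (A : Finset (Perm (Fin n))) (p : Fin n)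
    (hcell : ∀ i, (cell A p i).card < (K + 1).factorial)
    (ihX : ∀ i, (cr (cell A p i) (cell A p i) : ℚ) ≤ L K (cell A p i).card)
    (ihY : ∀ R, R ⊂ A → (cr R R : ℚ) ≤ L (K + 1) R.card)
    (hfail : L (K + 1) A.card < cr A A) :
    ((K : ℚ) + 1) * ∑ i, ((cell A p i).card : ℚ) ^ 2 ≤ (A.card : ℚ) ^ 2 := by
  classical
  -- the sorting permutation
  set f : Fin n → ℤ := fun i => -((cell A p i).card : ℤ) with hf
  set s : Perm (Fin n) := Tuple.sort f with hs
  have hmono : Monotone (f ∘ s) := Tuple.monotone_sort f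
  set R : ℕ → Finset (Perm (Fin n)) :=
    fun j => A.filter (fun σ => j ≤ ((s.symm (σ p) : Fin n) : ℕ)) with hR
  set X : ℕ → Finset (Perm (Fin n)) :=
    fun j => A.filter (fun σ => ((s.symm (σ p) : Fin n) : ℕ) = j) with hX
  have hX_lt : ∀ j (hj : j < n), X j = cell A p (s ⟨j, hj⟩) := by
    intro j hj
    simp only [hX, cell]
    refine filter_congr fun σ _ => ?_
    constructor
    · intro h
      have : s.symm (σ p) = ⟨j, hj⟩ := Fin.ext h
      rw [← this]; simp
    · intro h
      rw [h]; simp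
  have hX_ge : ∀ j, n ≤ j → X j = ∅ := by
    intro j hj
    simp only [hX]
    rw [filter_eq_empty_iff]
    intro σ _ h
    have := (s.symm (σ p)).isLt
    omega
  have hdisj : ∀ j, Disjoint (X j) (R (j + 1)) := by
    intro j
    rw [disjoint_left]
    intro σ h1 h2
    simp only [hX, hR, mem_filter] at h1 h2
    omega
  have hunion : ∀ j, R j = X j ∪ R (j + 1) := by
    intro j
    ext σ
    simp only [hX, hR, mem_filter, mem_union]
    constructor
    · rintro ⟨h1, h2⟩
      rcases h2.eq_or_lt with h | h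
      · left; exact ⟨h1, h.symm⟩
      · right; exact ⟨h1, h⟩
    · rintro (⟨h1, h2⟩ | ⟨h1, h2⟩)
      · exact ⟨h1, h2.ge⟩
      · exact ⟨h1, by omega⟩
  have hR0 : R 0 = A := by
    simp [hR]
  have hRn : R n = ∅ := by
    simp only [hR]
    rw [filter_eq_empty_iff]
    intro σ _ h
    have := (s.symm (σ p)).isLt
    omega
  set b : ℕ → ℚ := fun j => ((X j).card : ℚ) with hb
  set r : ℕ → ℚ := fun j => ((R j).card : ℚ) with hr
  have hbr : ∀ j, r j = b j + r (j + 1) := by
    intro j
    simp only [hb, hr]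
    rw [hunion j, card_union_of_disjoint (hdisj j)]
    push_cast
    ring
  have hb_nonneg : ∀ j, 0 ≤ b j := by
    intro j
    have h : (0 : ℚ) ≤ ((X j).card : ℚ) := Nat.cast_nonneg _
    exact h
  have hb_anti : Antitone b := by
    intro i j hij
    rcases lt_or_ge j n with hj | hj
    · have hi : i < n := lt_of_le_of_lt hij hj
      simp only [hb]
      rw [hX_lt i hi, hX_lt j hj]
      have h1 : f (s ⟨i, hi⟩) ≤ f (s ⟨j, hj⟩) := hmono (by exact hij)
      simp only [hf] at h1
      have h2 : ((cell A p (s ⟨j, hj⟩)).card : ℤ) ≤ (cell A p (s ⟨i, hi⟩)).card := by linarith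
      exact_mod_cast h2
    · simp only [hb]
      rw [hX_ge j hj]
      simp
  have hb_lt : ∀ j, b j < ((K + 1).factorial : ℚ) := by
    intro j
    simp only [hb]
    rcases lt_or_ge j n with hj | hj
    · rw [hX_lt j hj]
      exact_mod_cast hcell _
    · rw [hX_ge j hj]
      simpa using fact_pos (K + 1)
  have hApos : 0 < A.card := by
    rcases Nat.eq_zero_or_pos A.card with h | h
    · exfalso
      rw [card_eq_zero] at h
      subst h
      simp [L, cr] at hfail
    · exact h
  have hnpos : 0 < n := p.pos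
  have hX0 : (X 0).Nonempty := by
    by_contra hne
    rw [not_nonempty_iff_eq_empty] at hne
    have h0 : b 0 = 0 := by simp [hb, hne]
    have h1 : ∀ j, b j = 0 := fun j => le_antisymm (by rw [← h0]; exact hb_anti (Nat.zero_le j))
      (hb_nonneg j)
    have h2 : ∀ j, r j = r 0 := by
      intro j
      induction j with
      | zero => rfl
      | succ j ih =>
        have := hbr j
        rw [h1 j] at this
        linarith
    have h3 : ((R n).card : ℚ) = ((R 0).card : ℚ) := h2 n
    rw [hRn, hR0, card_empty] at h3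
    have h4 : (0 : ℕ) = A.card := by exact_mod_cast h3
    omega
  set U : ℕ → ℚ := fun j => L (K + 1) (R j).card - cr (R j) (R j) with hU
  have hU0 : U 0 ≤ 0 := by
    simp only [hU]
    rw [hR0]
    linarith
  have hUpos : ∀ j, 0 ≤ U (j + 1) := by
    intro j
    simp only [hU]
    have hss : R (j + 1) ⊂ A := by
      refine ⟨filter_subset _ _, ?_⟩
      intro hsub
      obtain ⟨σ, hσ⟩ := hX0
      simp only [hX, mem_filter] at hσ
      have h1 := hsub hσ.1
      simp only [hR, mem_filter] at h1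
      omega
    have := ihY _ hss
    linarith
  set w : ℕ → ℚ := fun j => b j / (((K + 1).factorial : ℚ) - b j) with hw
  have hw_anti : Antitone w := by
    intro i j hij
    simp only [hw]
    have h1 := hb_lt i
    have h2 := hb_lt j
    have h3 := hb_anti hij
    have h4 := hb_nonneg j
    rw [div_le_div_iff₀ (by linarith) (by linarith)]
    nlinarith [fact_pos (K + 1)]
  have hw_nonneg : ∀ j, 0 ≤ w j := by
    intro j
    simp only [hw]
    have h1 := hb_lt j
    exact div_nonneg (hb_nonneg j) (by linarith)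
  obtain ⟨N, rfl⟩ : ∃ N, n = N + 1 := ⟨n - 1, by omega⟩
  have habel := abel w U hw_anti hUpos N
  have hUn : U (N + 1) = 0 := by
    simp only [hU]
    rw [hRn]
    simp [L, cr]
  rw [hUn, mul_zero, add_zero] at habel
  have h5 : ∑ j ∈ range (N + 1), w j * (U j - U (j + 1)) ≤ 0 :=
    habel.trans (mul_nonpos_of_nonneg_of_nonpos (hw_nonneg 0) hU0)
  have h6 : ∀ j ∈ range (N + 1), b j / (K + 1).factorial * (K * b j - 2 * r (j + 1))
      ≤ w j * (U j - U (j + 1)) := by
    intro j hj
    rw [mem_range] at hj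
    have h7 : (1 - b j / (K + 1).factorial) * (K * b j - 2 * r (j + 1)) ≤ U j - U (j + 1) := by
      simp only [hb, hr, hU]
      have h8 := @peel_step (N + 1) K (X j) (R (j + 1)) (hdisj j) p (s ⟨j, hj⟩)
        (by
          intro σ hσ
          rw [hX_lt j hj, mem_cell] at hσ
          exact hσ.2)
        (by
          intro σ hσ hc
          simp only [hR, mem_filter] at hσ
          rw [hc] at hσ
          simp at hσ)
        (by
          rw [hX_lt j hj]
          exact ihX _)
      rw [← hunion j] at h8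
      exact h8
    have h9 : b j / (K + 1).factorial * (K * b j - 2 * r (j + 1))
        = w j * ((1 - b j / (K + 1).factorial) * (K * b j - 2 * r (j + 1))) := by
      simp only [hw]
      have h10 : ((K + 1).factorial : ℚ) - b j ≠ 0 := by
        have := hb_lt j
        linarith
      have h11 := (fact_pos (K + 1)).ne'
      field_simp
    rw [h9]
    exact mul_le_mul_of_nonneg_left h7 (hw_nonneg j)
  have h12 : ∑ j ∈ range (N + 1), b j / (K + 1).factorial * (K * b j - 2 * r (j + 1)) ≤ 0 :=
    (sum_le_sum h6).trans h5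
  have h13 : ∑ j ∈ range (N + 1), b j * (K * b j - 2 * r (j + 1)) ≤ 0 := by
    have h14 : ∑ j ∈ range (N + 1), b j / (K + 1).factorial * (K * b j - 2 * r (j + 1))
        = (∑ j ∈ range (N + 1), b j * (K * b j - 2 * r (j + 1))) / (K + 1).factorial := by
      rw [sum_div]
      refine sum_congr rfl fun j _ => ?_
      ring
    rw [h14] at h12
    by_contra hc
    push Not at hc
    have := div_pos hc (fact_pos (K + 1))
    linarith
  have h15 : ∑ j ∈ range (N + 1), (b j ^ 2 + 2 * (b j * r (j + 1))) = (A.card : ℚ) ^ 2 := by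
    have h16 : ∀ j ∈ range (N + 1), b j ^ 2 + 2 * (b j * r (j + 1))
        = r j ^ 2 - r (j + 1) ^ 2 := by
      intro j _
      rw [hbr j]
      ring
    rw [sum_congr rfl h16, sum_range_sub']
    simp only [hr]
    rw [hR0, hRn]
    simp
  have h17 : ∑ j ∈ range (N + 1), b j ^ 2 = ∑ i, ((cell A p i).card : ℚ) ^ 2 := by
    rw [Finset.sum_range, ← Equiv.sum_comp s (fun i => ((cell A p i).card : ℚ) ^ 2)]
    refine sum_congr rfl fun j _ => ?_
    simp only [hb]
    rw [hX_lt j j.isLt]
  rw [← h17]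
  have h18 : ∑ j ∈ range (N + 1), b j * (K * b j - 2 * r (j + 1))
      = K * ∑ j ∈ range (N + 1), b j ^ 2 - 2 * ∑ j ∈ range (N + 1), b j * r (j + 1) := by
    rw [mul_sum, mul_sum, ← sum_sub_distrib]
    refine sum_congr rfl fun j _ => ?_
    ring
  rw [sum_add_distrib, ← mul_sum] at h15
  rw [h18] at h13
  linarith

end Pool.Agent.Helper93.Transp
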