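import Pool.Agent.Helper93.TranspMain

set_option autoImplicit false

namespace Pool.Agent.Helper93.Transp

open Finset Equiv

variable {n : ℕ}

/-- edge boundary, in the form used in the frozen statement -/
def bd (S : Finset (Perm (Fin n))) : ℕ :=
  ((univ : Finset (Perm (Fin n) × Fin n × Fin n)).filter
    (fun p => p.2.1 < p.2.2 ∧ p.1 ∈ S ∧ p.1 * swap p.2.1 p.2.2 ∉ S)).card

lemma card_P (n : ℕ) : (P n).card = n.choose 2 := by
  have h := card_pairs (n := n) univ
  simp only [mem_univ, and_self, filter_true, card_univ, Fintype.card_fin] at h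
  exact h

lemma bd_eq (S : Finset (Perm (Fin n))) :
    bd S = ∑ σ ∈ S, ((P n).filter (fun t => σ * swap t.1 t.2 ∉ S)).card := by
  unfold bd
  have h1 : ((univ : Finset (Perm (Fin n) × Fin n × Fin n)).filter
    (fun p => p.2.1 < p.2.2 ∧ p.1 ∈ S ∧ p.1 * swap p.2.1 p.2.2 ∉ S))
      = (S ×ˢ (P n)).filter (fun p => p.1 * swap p.2.1 p.2.2 ∉ S) := by
    ext ⟨σ, i, j⟩
    simp only [mem_filter, mem_univ, true_and, mem_product, mem_P]
    tauto
  rw [h1, card_filter, sum_product]
  refine sum_congr rfl fun σ _ => ?_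
  rw [card_filter]

lemma bd_add_cr (S : Finset (Perm (Fin n))) :
    bd S + cr S S = n.choose 2 * S.card := by
  rw [bd_eq]
  unfold cr
  rw [← sum_add_distrib]
  have : ∀ σ ∈ S, ((P n).filter (fun t => σ * swap t.1 t.2 ∉ S)).card
      + ((P n).filter (fun t => σ * swap t.1 t.2 ∈ S)).card = n.choose 2 := by
    intro σ _
    rw [← card_P, add_comm]
    exact card_filter_add_card_filter_not _
  rw [sum_congr rfl this, sum_const, smul_eq_mul, mul_comm]

lemma bd_compl (S : Finset (Perm (Fin n))) : bd Sᶜ = bd S := by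
  unfold bd
  refine card_bij' (fun p _ => (p.1 * swap p.2.1 p.2.2, p.2)) (fun p _ => (p.1 * swap p.2.1 p.2.2, p.2))
    ?_ ?_ ?_ ?_
  · rintro ⟨σ, i, j⟩ h
    simp only [mem_filter, mem_univ, true_and, mem_compl, not_not] at h ⊢
    refine ⟨h.1, h.2.2, ?_⟩
    simpa [mul_assoc] using h.2.1
  · rintro ⟨σ, i, j⟩ h
    simp only [mem_filter, mem_univ, true_and, mem_compl, not_not] at h ⊢
    refine ⟨h.1, h.2.2, ?_⟩
    simpa [mul_assoc] using h.2.1
  · rintro ⟨σ, i, j⟩ _
    simp [mul_assoc]
  · rintro ⟨σ, i, j⟩ _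
    simp [mul_assoc]

/-- the lexicographic order, `π < σ` -/
def lt (π σ : Perm (Fin n)) : Prop :=
  ∃ j : Fin n, (∀ i : Fin n, i < j → π i = σ i) ∧ π j < σ j

instance (π σ : Perm (Fin n)) : Decidable (lt π σ) := by
  unfold lt; infer_instance

lemma lt_irrefl' (σ : Perm (Fin n)) : ¬ lt σ σ := by
  rintro ⟨j, _, h⟩
  exact lt_irrefl _ h

lemma lt_trans' {π σ τ : Perm (Fin n)} (h1 : lt π σ) (h2 : lt σ τ) : lt π τ := by
  obtain ⟨i, hi, hi'⟩ := h1
  obtain ⟨j, hj, hj'⟩ := h2
  rcases lt_trichotomy i j with h | h | h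
  · refine ⟨i, fun l hl => (hi l hl).trans (hj l (hl.trans h)), ?_⟩
    rw [← hj i h]; exact hi'
  · subst h
    exact ⟨i, fun l hl => (hi l hl).trans (hj l hl), hi'.trans hj'⟩
  · refine ⟨j, fun l hl => (hi l (hl.trans h)).trans (hj l hl), ?_⟩
    rw [hi j h]; exact hj'

lemma lt_tri {π σ : Perm (Fin n)} (hne : π ≠ σ) : lt π σ ∨ lt σ π := by
  classical
  have h1 : (univ.filter (fun i => π i ≠ σ i)).Nonempty := by
    by_contra h
    rw [not_nonempty_iff_eq_empty, filter_eq_empty_iff] at h
    apply hne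
    ext i
    have := h (mem_univ i)
    push Not at this
    rw [this]
  set j := (univ.filter (fun i => π i ≠ σ i)).min' h1 with hj
  have hj1 : π j ≠ σ j := by
    have := min'_mem _ h1
    rw [← hj, mem_filter] at this
    exact this.2
  have hj2 : ∀ i, i < j → π i = σ i := by
    intro i hi
    by_contra hc
    have := min'_le (univ.filter (fun i => π i ≠ σ i)) i (by simp [hc])
    rw [← hj] at this
    exact absurd hi (not_lt.2 this)
  rcases lt_or_gt_of_ne hj1 with h | h
  · left; exact ⟨j, hj2, h⟩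
  · right; exact ⟨j, fun i hi => (hj2 i hi).symm, h⟩

/-- the initial segment of size `m` in the lexicographic order -/
def seg (n m : ℕ) : Finset (Perm (Fin n)) :=
  univ.filter (fun σ => (univ.filter (fun π : Perm (Fin n) =>
    ∃ j : Fin n, (∀ i : Fin n, i < j → π i = σ i) ∧ π j < σ j)).card < m)

lemma seg_eq {S : Finset (Perm (Fin n))} {m : ℕ} (hS : ∀ σ ∈ S, ∀ π, lt π σ → π ∈ S)
    (hm : S.card = m) : seg n m = S := by
  ext σ
  simp only [seg, mem_filter, mem_univ, true_and]
  have h0 : (univ.filter (fun π : Perm (Fin n) =>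
    ∃ j : Fin n, (∀ i : Fin n, i < j → π i = σ i) ∧ π j < σ j))
      = univ.filter (fun π => lt π σ) := by
    refine filter_congr fun π _ => ?_
    rfl
  rw [h0]
  constructor
  · intro h
    by_contra hc
    have h1 : S ⊆ univ.filter (fun π => lt π σ) := by
      intro π hπ
      rw [mem_filter]
      refine ⟨mem_univ _, ?_⟩
      have hne : π ≠ σ := by
        rintro rfl; exact hc hπ
      rcases lt_tri hne with h2 | h2
      · exact h2
      · exact absurd (hS π hπ σ h2) hc
    have := card_le_card h1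
    omega
  · intro h
    have h1 : univ.filter (fun π => lt π σ) ⊆ S.erase σ := by
      intro π hπ
      rw [mem_filter] at hπ
      rw [mem_erase]
      refine ⟨?_, hS σ h π hπ.2⟩
      rintro rfl
      exact lt_irrefl' _ hπ.2
    have h2 := card_le_card h1
    rw [card_erase_of_mem h] at h2
    have h3 : 0 < S.card := card_pos.2 ⟨σ, h⟩
    omega

/-- the set of permutations fixing all `i < q` and with `σ q < q + a` -/
def S (q : Fin n) (a : ℕ) : Finset (Perm (Fin n)) :=
  univ.filter (fun σ => (∀ i, i < q → σ i = i) ∧ (σ q : ℕ) < q + a)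

lemma mem_S {q : Fin n} {a : ℕ} {σ : Perm (Fin n)} :
    σ ∈ S q a ↔ (∀ i, i < q → σ i = i) ∧ (σ q : ℕ) < q + a := by
  simp [S]

lemma ge_of_fix {q : Fin n} {σ : Perm (Fin n)} (h : ∀ i, i < q → σ i = i) {r : Fin n}
    (hr : q ≤ r) : q ≤ σ r := by
  by_contra hc
  push Not at hc
  have h1 := h _ hc
  have h2 : σ r = r := σ.injective h1
  rw [h2] at hc
  exact absurd hc (not_lt.2 hr)

lemma S_down {q : Fin n} {a : ℕ} {σ π : Perm (Fin n)} (hσ : σ ∈ S q a) (h : lt π σ) :
    π ∈ S q a := by
  rw [mem_S] at hσ ⊢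
  obtain ⟨j, hj, hj'⟩ := h
  have hjq : q ≤ j := by
    by_contra hc
    push Not at hc
    have h1 : ∀ i, i < j → π i = i := fun i hi => (hj i hi).trans (hσ.1 i (hi.trans hc))
    have h2 := ge_of_fix h1 (le_refl j)
    rw [hσ.1 j hc] at hj'
    exact absurd hj' (not_lt.2 h2)
  refine ⟨fun i hi => (hj i (lt_of_lt_of_le hi hjq)).trans (hσ.1 i hi), ?_⟩
  rcases hjq.eq_or_lt with h1 | h1
  · subst h1
    exact lt_trans (by exact hj') hσ.2
  · rw [hj q h1]
    exact hσ.2

lemma card_Ioi_pos (q : Fin n) : (Ioi q).card = n - 1 - q := Fin.card_Ioi q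

lemma card_S {q : Fin n} {a k : ℕ} (hq : (q : ℕ) + k + 1 = n) (ha : a ≤ k + 1) :
    (S q a).card = a * k.factorial := by
  classical
  have h1 : ∀ c (hc : c < a), (univ.filter (fun σ : Perm (Fin n) => (∀ i, i < q → σ i = i) ∧
      (σ q : ℕ) = q + c)).card = k.factorial := by
    intro c hc
    have hqc : (q : ℕ) + c < n := by omega
    have h2 : (univ.filter (fun σ : Perm (Fin n) => (∀ i, i < q → σ i = i) ∧
      (σ q : ℕ) = q + c)) = coset (swap q ⟨q + c, hqc⟩) (Ioi q) := by
      ext σ
      rw [mem_coset]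
      simp only [mem_filter, mem_univ, true_and, mem_Ioi, not_lt]
      constructor
      · rintro ⟨h3, h4⟩ p hp
        rcases hp.eq_or_lt with h5 | h5
        · subst h5
          rw [swap_apply_left]
          exact Fin.ext h4
        · rw [h3 p h5, swap_apply_of_ne_of_ne h5.ne]
          intro h6
          rw [h6] at h5
          have h7 : (q : ℕ) + c < q := h5
          omega
      · intro h3
        constructor
        · intro i hi
          rw [h3 i hi.le, swap_apply_of_ne_of_ne hi.ne]
          intro h6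
          rw [h6] at hi
          have h7 : (q : ℕ) + c < q := hi
          omega
        · rw [h3 q le_rfl, swap_apply_left]
    rw [h2, card_coset, card_Ioi_pos]
    congr 1
    omega
  have h2 : S q a = (range a).biUnion (fun c => univ.filter (fun σ : Perm (Fin n) =>
      (∀ i, i < q → σ i = i) ∧ (σ q : ℕ) = q + c)) := by
    ext σ
    rw [mem_S, mem_biUnion]
    simp only [mem_range, mem_filter, mem_univ, true_and]
    constructor
    · rintro ⟨h3, h4⟩
      have h5 : (q : ℕ) ≤ σ q := ge_of_fix h3 le_rfl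
      exact ⟨(σ q : ℕ) - q, by omega, h3, by omega⟩
    · rintro ⟨c, hc, h3, h4⟩
      exact ⟨h3, by omega⟩
  rw [h2, card_biUnion]
  · rw [sum_congr rfl (fun c hc => h1 c (mem_range.1 hc)), sum_const, card_range, smul_eq_mul]
  · intro c _ d _ hcd
    rw [Function.onFun, disjoint_left]
    intro σ h3 h4
    simp only [mem_filter, mem_univ, true_and] at h3 h4
    apply hcd
    omega

lemma deg_S {q : Fin n} {a k : ℕ} (hq : (q : ℕ) + k + 1 = n) (ha : a ≤ k + 1) (ha1 : 1 ≤ a)
    {σ : Perm (Fin n)} (hσ : σ ∈ S q a) :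
    k.choose 2 + (a - 1) ≤ ((P n).filter (fun t => σ * swap t.1 t.2 ∈ S q a)).card := by
  classical
  rw [mem_S] at hσ
  have hcount : (univ.filter (fun r : Fin n => q < r ∧ (σ r : ℕ) < q + a)).card = a - 1 := by
    have h1 : (univ.filter (fun r : Fin n => (σ r : ℕ) < q + a)).card = q + a := by
      have h2 : (univ.filter (fun r : Fin n => (σ r : ℕ) < q + a)).card
          = (univ.filter (fun r : Fin n => (r : ℕ) < q + a)).card := by
        refine card_bij' (fun r _ => σ r) (fun r _ => σ.symm r) ?_ ?_ ?_ ?_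
        · intro r hr; simpa using hr
        · intro r hr; simpa using hr
        · intro r _; simp
        · intro r _; simp
      rw [h2, Fin.card_filter_val_lt]
      omega
    have h3 : (univ.filter (fun r : Fin n => (σ r : ℕ) < q + a))
        = (univ.filter (fun r : Fin n => q < r ∧ (σ r : ℕ) < q + a)) ∪ Iic q := by
      ext r
      simp only [mem_filter, mem_univ, true_and, mem_union, mem_Iic]
      constructor
      · intro h
        rcases le_or_gt r q with h4 | h4
        · right; exact h4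
        · left; exact ⟨h4, h⟩
      · rintro (⟨_, h⟩ | h)
        · exact h
        · rcases h.eq_or_lt with h4 | h4
          · rw [h4]; exact hσ.2
          · rw [hσ.1 r h4]
            have h5 : (r : ℕ) < q := h4
            omega
    have h4 : Disjoint (univ.filter (fun r : Fin n => q < r ∧ (σ r : ℕ) < q + a)) (Iic q) := by
      rw [disjoint_left]
      intro r h5 h6
      simp only [mem_filter, mem_univ, true_and, mem_Iic] at h5 h6
      exact absurd h5.1 (not_lt.2 h6)
    rw [h3, card_union_of_disjoint h4, Fin.card_Iic] at h1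
    omega
  have hpairs : ((P n).filter (fun t => t.1 ∈ Ioi q ∧ t.2 ∈ Ioi q)).card = k.choose 2 := by
    rw [card_pairs, card_Ioi_pos]
    congr 1
    omega
  rw [← hpairs, ← hcount]
  have hinj : Function.Injective (fun r : Fin n => (q, r)) := by
    intro r s h
    simpa using h
  rw [← card_image_of_injective (univ.filter (fun r : Fin n => q < r ∧ (σ r : ℕ) < q + a)) hinj,
    ← card_union_of_disjoint]
  · refine card_le_card ?_
    intro t ht
    rw [mem_union] at ht
    rw [mem_filter, mem_P, mem_S]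
    rcases ht with ht | ht
    · rw [mem_filter, mem_P, mem_Ioi, mem_Ioi] at ht
      obtain ⟨h1, h2, h3⟩ := ht
      refine ⟨h1, ?_, ?_⟩
      · intro i hi
        rw [Perm.mul_apply, swap_apply_of_ne_of_ne (hi.trans h2).ne (hi.trans h3).ne, hσ.1 i hi]
      · rw [Perm.mul_apply, swap_apply_of_ne_of_ne h2.ne h3.ne]
        exact hσ.2
    · rw [mem_image] at ht
      obtain ⟨r, hr, rfl⟩ := ht
      simp only [mem_filter, mem_univ, true_and] at hr
      refine ⟨hr.1, ?_, ?_⟩
      · intro i hi
        rw [Perm.mul_apply, swap_apply_of_ne_of_ne hi.ne (hi.trans hr.1).ne, hσ.1 i hi]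
      · rw [Perm.mul_apply, swap_apply_left]
        exact hr.2
  · rw [disjoint_left]
    intro t h1 h2
    rw [mem_filter, mem_Ioi] at h1
    rw [mem_image] at h2
    obtain ⟨r, _, rfl⟩ := h2
    exact lt_irrefl _ h1.2.1

lemma cr_S {q : Fin n} {a k : ℕ} (hq : (q : ℕ) + k + 1 = n) (ha : a ≤ k + 1) (ha1 : 1 ≤ a) :
    L k ((a * k.factorial : ℕ) : ℚ) ≤ cr (S q a) (S q a) := by
  have h1 : (S q a).card * (k.choose 2 + (a - 1)) ≤ cr (S q a) (S q a) := by
    unfold cr
    rw [← smul_eq_mul, ← sum_const]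
    exact sum_le_sum fun σ hσ => deg_S hq ha ha1 hσ
  rw [card_S hq ha] at h1
  have h2 : ((a * k.factorial * (k.choose 2 + (a - 1)) : ℕ) : ℚ) ≤ (cr (S q a) (S q a) : ℚ) := by
    exact_mod_cast h1
  refine le_trans (le_of_eq ?_) h2
  unfold L
  have h3 := fact_pos k
  push_cast [Nat.cast_sub ha1]
  field_simp
  ring

end Pool.Agent.Helper93.Transp
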