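import Pool.Agent.Helper93.TranspIso

set_option autoImplicit false

namespace Pool.Agent.Helper93.Transp

open Finset Equiv

variable {n : ℕ}

lemma two_choose (K : ℕ) : 2 * ((K.choose 2 : ℕ) : ℚ) = (K : ℚ) * ((K : ℚ) - 1) := by
  rw [Nat.cast_choose_two]
  ring

lemma final_compl {F y C K' c q m a : ℚ} (hm : m = y * F)
    (ha : a = (K' + 2 - y) * F) (h5 : q ≤ a * (C + K' - 1) + (K' + 2 - y) * a)
    (hc : c = (C + 2 * K' + 1) * (m - a) + q) (hfail : m * (C + K' - 1 + y) < c) : False := by
  subst hc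
  subst hm
  subst ha
  have h : (C + 2 * K' + 1) * (y * F - (K' + 2 - y) * F)
      + ((K' + 2 - y) * F * (C + K' - 1) + (K' + 2 - y) * ((K' + 2 - y) * F))
      = y * F * (C + K' - 1 + y) := by ring
  linarith

lemma final_big {x y K' C : ℚ} (hx : K' + 3 ≤ x) (hK : 1 ≤ K') (hC : 2 * C = K' * (K' - 1))
    (hy : y ≤ K' + 1) (h : x * K' < 2 * C + 2 * K' - 2 + 2 * y) : False := by
  have h1 : (K' + 3) * K' ≤ x * K' := mul_le_mul_of_nonneg_right hx (by linarith)
  have h2 : (K' + 3) * K' = K' * (K' - 1) + 2 * K' + 2 * K' := by ring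
  linarith

lemma final_big2 {x y K' C : ℚ} (hx : K' + 3 ≤ x) (hK : 1 ≤ K') (hC : 2 * C = K' * (K' - 1))
    (hy : K' + 1 < y) (h : x * (y - 1) < 2 * C + 2 * K' - 2 + 2 * y) : False := by
  have h1 : (K' + 3) * (y - 1) ≤ x * (y - 1) := mul_le_mul_of_nonneg_right hx (by linarith)
  have h3 : (K' + 1) * (K' + 1) ≤ (K' + 1) * y := mul_le_mul_of_nonneg_left hy.le (by linarith)
  have h2 : (K' + 3) * (y - 1) = (K' + 1) * y + 2 * y - (K' + 3) := by ring
  have h4 : (K' + 1) * (K' + 1) = K' * (K' - 1) + 3 * K' + 1 := by ring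
  linarith

lemma final_eq {x y K' C : ℚ} (hx : x = K' + 2) (hC : 2 * C = K' * (K' - 1))
    (hy : 2 * y ≤ K' + 2) (h : x * K' < 2 * C + 2 * K' - 2 + 2 * y) : False := by
  subst hx
  have h2 : (K' + 2) * K' = K' * (K' - 1) + 3 * K' := by ring
  linarith

theorem main_bound (A : Finset (Perm (Fin n))) (k : ℕ) (hk : 1 ≤ k) :
    (cr A A : ℚ) ≤ L k A.card := by
  classical
  induction hm : A.card using Nat.strong_induction_on generalizing A k with
  | _ m ih =>
  have hIH : ∀ R : Finset (Perm (Fin n)), R.card < m → ∀ k, 1 ≤ k → (cr R R : ℚ) ≤ L k R.card :=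
    fun R hR k hk => ih R.card hR R k hk rfl
  -- choice of the best `K`
  have hex : ∃ K, 1 ≤ K ∧ m ≤ (K + 1).factorial :=
    ⟨m + 1, by omega, (Nat.self_le_factorial m).trans (Nat.factorial_le (by omega))⟩
  obtain ⟨hK1, hK2⟩ := Nat.find_spec hex
  set K := Nat.find hex with hKdef
  have hK3 : K.factorial < m ∨ K = 1 := by
    rcases Nat.lt_or_ge K 2 with h | h
    · right; omega
    · left
      have := Nat.find_min hex (m := K - 1) (by omega)
      push Not at this
      have h2 := this (by omega)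
      have h3 : K - 1 + 1 = K := by omega
      rwa [h3] at h2
  refine le_trans ?_ (L_best hK1 (hK3.imp le_of_lt id) hK2 k hk)
  rcases Nat.lt_or_ge K 2 with hK | hK
  · have hK' : K = 1 := by omega
    rw [hK']
    have h1 := cr_self_le A
    rw [hm] at h1
    have h2 : (cr A A : ℚ) + m ≤ (m : ℚ) ^ 2 := by exact_mod_cast h1
    simp [L]
    linarith
  have hK4 : K.factorial < m := by
    rcases hK3 with h | h
    · exact h
    · omega
  clear hK3
  clear_value K
  clear hKdef hex hk k
  obtain ⟨K', rfl⟩ : ∃ K', K = K' + 1 := ⟨K - 1, by omega⟩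
  by_contra hfail
  push Not at hfail
  have hmpos : 0 < m := lt_of_le_of_lt (Nat.zero_le _) hK4
  have hmQ : (0 : ℚ) < m := by exact_mod_cast hmpos
  obtain ⟨σ₀, hσ₀⟩ : A.Nonempty := by
    rw [← card_pos, hm]; exact hmpos
  set N : Finset (Fin n) := univ.filter (fun p => ∃ σ ∈ A, ∃ π ∈ A, σ p ≠ π p) with hN
  have hcell_lt : ∀ p ∈ N, ∀ i, (cell A p i).card < m := by
    intro p hp i
    rw [← hm]
    refine card_lt_card ⟨filter_subset _ _, ?_⟩
    intro hsub
    simp only [hN, mem_filter, mem_univ, true_and] at hp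
    obtain ⟨σ, hσ, π, hπ, hne⟩ := hp
    have h1 := (mem_cell.1 (hsub hσ)).2
    have h2 := (mem_cell.1 (hsub hπ)).2
    exact hne (h1.trans h2.symm)
  have hsmall : ∀ p ∈ N, ∀ i, (cell A p i).card < (K' + 1).factorial := by
    intro p hp i
    by_contra hc
    push Not at hc
    have hd : Disjoint (cell A p i) (A.filter (fun σ => ¬ (σ p = i))) := by
      unfold cell
      exact disjoint_filter_filter_not _ _ _
    have hU : cell A p i ∪ A.filter (fun σ => ¬ (σ p = i)) = A := by
      unfold cell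
      exact filter_union_filter_not_eq _ _
    have hcard : (cell A p i).card + (A.filter (fun σ => ¬ (σ p = i))).card = m := by
      rw [← card_union_of_disjoint hd, hU, hm]
    have h1 := big_cell (k := K' + 1) hd (p := p) (i := i) (fun σ hσ => (mem_cell.1 hσ).2)
      (fun σ hσ => (mem_filter.1 hσ).2) hc
      (hIH _ (hcell_lt p hp i) _ (by omega))
      (hIH _ (by have := Nat.factorial_pos (K' + 1); omega) _ (by omega))
    rw [hU, hm] at h1
    linarith
  have hrow : ∀ p ∈ N, ((K' : ℚ) + 1) * ∑ i, ((cell A p i).card : ℚ) ^ 2 ≤ (m : ℚ) ^ 2 := by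
    intro p hp
    have := row_ineq (K := K') A p (hsmall p hp)
      (fun i => hIH _ (hcell_lt p hp i) _ (by omega))
      (fun R hR => hIH _ (by rw [← hm]; exact card_lt_card hR) _ (by omega))
      (by rw [hm]; exact hfail)
    rw [hm] at this
    exact this
  have hNadj : ∀ σ ∈ A, ∀ t ∈ P n, σ * swap t.1 t.2 ∈ A → t.1 ∈ N ∧ t.2 ∈ N := by
    intro σ hσ t ht hσt
    rw [mem_P] at ht
    simp only [hN, mem_filter, mem_univ, true_and]
    constructor
    · refine ⟨σ, hσ, _, hσt, ?_⟩
      rw [Perm.mul_apply, swap_apply_left]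
      intro h
      exact ht.ne (σ.injective h)
    · refine ⟨σ, hσ, _, hσt, ?_⟩
      rw [Perm.mul_apply, swap_apply_right]
      intro h
      exact ht.ne' (σ.injective h)
  have havg := averaging A N hNadj
  have hsub : A ⊆ coset σ₀ N := by
    intro σ hσ
    rw [mem_coset]
    intro p hp
    by_contra hc
    apply hp
    simp only [hN, mem_filter, mem_univ, true_and]
    exact ⟨σ, hσ, σ₀, hσ₀, hc⟩
  have hmN : m ≤ N.card.factorial := by
    rw [← hm, ← card_coset σ₀ N]
    exact card_le_card hsub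
  have hNK : K' + 2 ≤ N.card := by
    by_contra hc
    push Not at hc
    have := Nat.factorial_le (show N.card ≤ K' + 1 by omega)
    omega
  -- sums of squares
  have hsumcell : ∀ p : Fin n, ∑ i, ((cell A p i).card : ℚ) = m := by
    intro p
    rw [← hm]
    have h1 := card_eq_sum_card_fiberwise (f := fun σ : Perm (Fin n) => σ p) (s := A)
      (t := univ) (fun _ _ => by simp)
    rw [h1]
    push_cast
    rfl
  obtain ⟨F, hF⟩ : ∃ F : ℚ, F = ((K' + 1).factorial : ℚ) := ⟨_, rfl⟩
  have hFpos : 0 < F := by rw [hF]; exact fact_pos _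
  obtain ⟨y, hy⟩ : ∃ y : ℚ, y = (m : ℚ) / F := ⟨_, rfl⟩
  have hmy : (m : ℚ) = y * F := by
    rw [hy]; field_simp
  have hypos : 0 < y := by rw [hy]; exact div_pos hmQ hFpos
  have hcellsum : ∀ p ∈ N, ∀ μ : ℚ, (μ = y ∨ μ = K' + 1) →
      ∑ i, (cr (cell A p i) (cell A p i) : ℚ) ≤ m * ((K'.choose 2 : ℚ) - 1 + μ) := by
    intro p hp μ hμ
    have h1 : ∑ i, (cr (cell A p i) (cell A p i) : ℚ) ≤ ∑ i, L K' (cell A p i).card :=
      sum_le_sum fun i _ => hIH _ (hcell_lt p hp i) _ (by omega)
    have h2 : ∑ i, L K' (cell A p i).card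
        = ((K'.choose 2 : ℚ) - 1) * m
          + ((K' : ℚ) + 1) * (∑ i, ((cell A p i).card : ℚ) ^ 2) / F := by
      unfold L
      rw [sum_add_distrib, ← mul_sum, hsumcell, ← sum_div]
      congr 1
      have hFK : F = ((K' : ℚ) + 1) * (K'.factorial : ℚ) := by
        rw [hF, Nat.factorial_succ]
        push_cast
        ring
      rw [hFK]
      have h3 := fact_pos K'
      have h2 : (0 : ℚ) < (K' : ℚ) + 1 := by positivity
      rw [mul_div_mul_left _ _ h2.ne']
    have h3 : ((K' : ℚ) + 1) * (∑ i, ((cell A p i).card : ℚ) ^ 2) / F ≤ m * μ := by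
      rw [div_le_iff₀ hFpos]
      rcases hμ with rfl | rfl
      · refine (hrow p hp).trans (le_of_eq ?_)
        rw [hmy]
        ring
      · have h4 : ∑ i, ((cell A p i).card : ℚ) ^ 2 ≤ ∑ i, F * ((cell A p i).card : ℚ) := by
          refine sum_le_sum fun i _ => ?_
          have h5 : ((cell A p i).card : ℚ) ≤ F := by
            rw [hF]
            exact_mod_cast (hsmall p hp i).le
          have h6 : (0 : ℚ) ≤ ((cell A p i).card : ℚ) := Nat.cast_nonneg _
          nlinarith
        rw [← mul_sum, hsumcell] at h4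
        have h7 : (0 : ℚ) ≤ (K' : ℚ) + 1 := by positivity
        nlinarith [mul_le_mul_of_nonneg_left h4 h7]
    rw [h2] at h1
    linarith
  obtain ⟨x, hx⟩ : ∃ x : ℚ, x = (N.card : ℚ) := ⟨_, rfl⟩
  have hxK : (K' : ℚ) + 2 ≤ x := by
    rw [hx]; exact_mod_cast hNK
  obtain ⟨c, hc⟩ : ∃ c : ℚ, c = (cr A A : ℚ) := ⟨_, rfl⟩
  rw [← hc] at hfail
  have hmain : ∀ μ : ℚ, (μ = y ∨ μ = K' + 1) →
      (x - 2) * c ≤ x * (m * ((K'.choose 2 : ℚ) - 1 + μ)) := by
    intro μ hμ
    have h1 : (∑ p ∈ N, ∑ i, (cr (cell A p i) (cell A p i) : ℚ)) + 2 * c = x * c := by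
      rw [hc, hx]
      exact_mod_cast havg
    have h2 : ∑ p ∈ N, ∑ i, (cr (cell A p i) (cell A p i) : ℚ)
        ≤ ∑ p ∈ N, m * ((K'.choose 2 : ℚ) - 1 + μ) :=
      sum_le_sum fun p hp => hcellsum p hp μ hμ
    rw [sum_const, nsmul_eq_mul] at h2
    rw [← hx] at h2
    linarith
  have hLval : L (K' + 1) m = m * ((K'.choose 2 : ℚ) + K' - 1 + y) := by
    unfold L
    rw [choose_succ_two, ← hF, hy]
    ring
  rw [hLval] at hfail
  have h2C := two_choose K'
  obtain ⟨C, hC⟩ : ∃ C : ℚ, C = (K'.choose 2 : ℚ) := ⟨_, rfl⟩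
  rw [← hC] at hfail h2C
  simp only [← hC] at hmain
  have hK'1 : (1 : ℚ) ≤ K' := by
    have : 1 ≤ K' := by omega
    exact_mod_cast this
  have hkey : ∀ μ : ℚ, (μ = y ∨ μ = K' + 1) →
      (x - 2) * (C + K' - 1 + y) < x * (C - 1 + μ) := by
    intro μ hμ
    have h1 := hmain μ hμ
    have h2 : 0 < x - 2 := by linarith
    have h3 : (x - 2) * (m * (C + K' - 1 + y)) < (x - 2) * c :=
      mul_lt_mul_of_pos_left hfail h2
    have h4 : m * ((x - 2) * (C + K' - 1 + y)) < m * (x * (C - 1 + μ)) := by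
      calc m * ((x - 2) * (C + K' - 1 + y)) = (x - 2) * (m * (C + K' - 1 + y)) := by ring
        _ < (x - 2) * c := h3
        _ ≤ x * (m * (C - 1 + μ)) := h1
        _ = m * (x * (C - 1 + μ)) := by ring
    exact lt_of_mul_lt_mul_left h4 hmQ.le
  have hkey1 := hkey y (Or.inl rfl)
  have hkey2 := hkey (K' + 1) (Or.inr rfl)
  -- simplify
  have hk1 : x * K' < 2 * C + 2 * K' - 2 + 2 * y := by
    have e1 : (x - 2) * (C + K' - 1 + y) = x * (C - 1 + y) + x * K'
      - (2 * C + 2 * K' - 2 + 2 * y) := by ring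
    linarith
  have hk2 : x * (y - 1) < 2 * C + 2 * K' - 2 + 2 * y := by
    have e1 : (x - 2) * (C + K' - 1 + y) = x * (C - 1 + (K' + 1)) + x * (y - 1)
      - (2 * C + 2 * K' - 2 + 2 * y) := by ring
    linarith
  rcases Nat.lt_or_ge N.card (K' + 3) with hN3 | hN3
  · have hNeq : N.card = K' + 2 := by omega
    have hxeq : x = K' + 2 := by rw [hx, hNeq]; push_cast; ring
    rcases le_or_gt (2 * y) (K' + 2) with h2y | h2y
    · exact final_eq hxeq h2C h2y hk1
    · -- complement inside the coset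
      set B := coset σ₀ N with hB
      have hBcard : B.card = (K' + 2).factorial := by
        rw [hB, card_coset, hNeq]
      set A' := B \ A with hA'
      have hdis : Disjoint A A' := disjoint_sdiff
      have hun : A ∪ A' = B := union_sdiff_of_subset hsub
      have hcardA' : m + A'.card = (K' + 2).factorial := by
        rw [← hBcard, ← hun, card_union_of_disjoint hdis, hm]
      have hfact : (((K' + 2).factorial : ℕ) : ℚ) = (K' + 2) * F := by
        rw [Nat.factorial_succ (K' + 1), hF]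
        push_cast
        ring
      have hcQ : (m : ℚ) + A'.card = (K' + 2) * F := by
        rw [← hfact]
        exact_mod_cast hcardA'
      have hlt : A'.card < m := by
        have h1 : (A'.card : ℚ) < m := by
          have h3 : (K' + 2) * F < 2 * y * F := by
            exact mul_lt_mul_of_pos_right h2y hFpos
          have h4 : (m : ℚ) + A'.card < 2 * m := by
            rw [hcQ]
            calc ((K' : ℚ) + 2) * F < 2 * y * F := h3
              _ = 2 * m := by rw [hmy]; ring
          linarith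
        exact_mod_cast h1
      have h5 := hIH A' hlt (K' + 1) (by omega)
      have h6 : cr A A + cr A A' = (K' + 2).choose 2 * m := by
        rw [← cr_union_right _ hdis, hun, ← hm, ← hNeq]
        exact cr_coset hsub
      have h7 : cr A' A + cr A' A' = (K' + 2).choose 2 * A'.card := by
        rw [← cr_union_right _ hdis, hun, ← hNeq]
        exact cr_coset sdiff_subset
      rw [cr_comm A' A] at h7
      have h6' : c + (cr A A' : ℚ) = ((K' + 2).choose 2 : ℚ) * m := by
        rw [hc]; exact_mod_cast h6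
      have h7' : (cr A A' : ℚ) + (cr A' A' : ℚ) = ((K' + 2).choose 2 : ℚ) * A'.card := by
        exact_mod_cast h7
      have h8 : ((K' + 2).choose 2 : ℚ) = C + 2 * K' + 1 := by
        rw [choose_succ_two (K' + 1), choose_succ_two K', hC]
        push_cast
        ring
      have h9 : L (K' + 1) A'.card = A'.card * (C + K' - 1) + (A'.card : ℚ) ^ 2 / F := by
        unfold L
        rw [choose_succ_two, ← hF, ← hC]
        ring
      rw [h9] at h5
      have h10 : (A'.card : ℚ) = (K' + 2 - y) * F := by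
        have : (m : ℚ) = y * F := hmy
        linarith
      have h11 : (A'.card : ℚ) ^ 2 / F = (K' + 2 - y) * A'.card := by
        rw [h10]
        field_simp
      rw [h11] at h5
      rw [h8] at h6' h7'
      have h12 : c = (C + 2 * K' + 1) * (m - A'.card) + cr A' A' := by linarith
      exact final_compl hmy h10 h5 h12 hfail
  · have hx3 : (K' : ℚ) + 3 ≤ x := by
      rw [hx]; exact_mod_cast hN3
    rcases le_or_gt y (K' + 1) with hyK | hyK
    · exact final_big hx3 hK'1 h2C hyK hk1
    · exact final_big2 hx3 hK'1 h2C hyK hk2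

end Pool.Agent.Helper93.Transp
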