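import Pool.Agent.Helper93.TranspFinal

set_option autoImplicit false

namespace Pool.Agent.Helper93.Transp

open Finset Equiv

variable {n : ℕ}

/-- the cycle of values: `q ↦ q+a`, `x ↦ x-1` for `q < x ≤ q+a`, other values fixed -/
def cyc (q : Fin n) (a : ℕ) (h : (q : ℕ) + a < n) : Perm (Fin n) where
  toFun x := ⟨if (x : ℕ) < q then x else if (x : ℕ) = q then q + a else
    if (x : ℕ) ≤ q + a then x - 1 else x, by
      have := x.isLt
      split_ifs <;> omega⟩
  invFun x := ⟨if (x : ℕ) < q then x else if (x : ℕ) < q + a then x + 1 else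
    if (x : ℕ) = q + a then q else x, by
      have := x.isLt
      split_ifs <;> omega⟩
  left_inv x := by
    apply Fin.ext
    dsimp only
    split_ifs <;> omega
  right_inv x := by
    apply Fin.ext
    dsimp only
    split_ifs <;> omega

lemma cyc_val (q : Fin n) (a : ℕ) (h : (q : ℕ) + a < n) (x : Fin n) :
    (cyc q a h x : ℕ) = if (x : ℕ) < q then (x : ℕ) else if (x : ℕ) = q then q + a else
    if (x : ℕ) ≤ q + a then x - 1 else x := rfl

lemma cyc_fix {q : Fin n} {a : ℕ} {h : (q : ℕ) + a < n} {x : Fin n} (hx : x < q) :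
    cyc q a h x = x := by
  apply Fin.ext
  rw [cyc_val, if_pos (by exact hx)]

lemma cyc_self {q : Fin n} {a : ℕ} {h : (q : ℕ) + a < n} :
    (cyc q a h q : ℕ) = q + a := by
  rw [cyc_val, if_neg (lt_irrefl _), if_pos rfl]

lemma cyc_lt {q : Fin n} {a : ℕ} {h : (q : ℕ) + a < n} {x y : Fin n} (hx : x ≠ q) (hy : y ≠ q) :
    cyc q a h x < cyc q a h y ↔ x < y := by
  have hx' : (x : ℕ) ≠ q := fun h => hx (Fin.ext h)
  have hy' : (y : ℕ) ≠ q := fun h => hy (Fin.ext h)
  rw [Fin.lt_def, Fin.lt_def, cyc_val, cyc_val]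
  split_ifs <;> omega

/-- left translate of a set of permutations -/
def tr (c : Perm (Fin n)) (X : Finset (Perm (Fin n))) : Finset (Perm (Fin n)) :=
  univ.filter (fun σ => c⁻¹ * σ ∈ X)

lemma mem_tr {c σ : Perm (Fin n)} {X : Finset (Perm (Fin n))} : σ ∈ tr c X ↔ c⁻¹ * σ ∈ X := by
  simp [tr]

lemma card_tr (c : Perm (Fin n)) (X : Finset (Perm (Fin n))) : (tr c X).card = X.card := by
  refine card_bij' (fun σ _ => c⁻¹ * σ) (fun σ _ => c * σ) ?_ ?_ ?_ ?_
  · intro σ h; exact mem_tr.1 h
  · intro σ h; rw [mem_tr, inv_mul_cancel_left]; exact h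
  · intro σ _; simp
  · intro σ _; simp

lemma cr_tr (c : Perm (Fin n)) (X : Finset (Perm (Fin n))) : cr (tr c X) (tr c X) = cr X X := by
  rw [cr_eq_sum, cr_eq_sum]
  refine sum_congr rfl fun t _ => ?_
  refine card_bij' (fun σ _ => c⁻¹ * σ) (fun σ _ => c * σ) ?_ ?_ ?_ ?_
  · intro σ h
    rw [mem_filter, mem_tr, mem_tr, ← mul_assoc] at h
    rw [mem_filter]
    exact h
  · intro σ h
    rw [mem_filter] at h
    simpa [mem_filter, mem_tr, mul_assoc] using h
  · intro σ _; simp
  · intro σ _; simp

lemma seg_mono {m m' : ℕ} (h : m ≤ m') : seg n m ⊆ seg n m' := by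
  intro σ hσ
  simp only [seg, mem_filter, mem_univ, true_and] at hσ ⊢
  exact lt_of_lt_of_le hσ h

lemma seg_down {m : ℕ} {σ π : Perm (Fin n)} (hσ : σ ∈ seg n m) (h : lt π σ) : π ∈ seg n m := by
  simp only [seg, mem_filter, mem_univ, true_and] at hσ ⊢
  refine lt_of_le_of_lt (card_le_card ?_) hσ
  intro τ hτ
  rw [mem_filter] at hτ ⊢
  exact ⟨mem_univ _, lt_trans' hτ.2 h⟩

lemma seg_S {q : Fin n} {a k : ℕ} (hq : (q : ℕ) + k + 1 = n) (ha : a ≤ k + 1) :
    seg n (a * k.factorial) = S q a :=
  seg_eq (fun _ hσ _ hπ => S_down hσ hπ) (card_S hq ha)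

lemma seg_step {q : Fin n} {a k r : ℕ} (hq : (q : ℕ) + k + 1 = n) (ha : a ≤ k)
    (hr : r ≤ k.factorial) (hcard : (seg n r).card = r) (h : (q : ℕ) + a < n) :
    seg n (a * k.factorial + r) = S q a ∪ tr (cyc q a h) (seg n r) ∧
      Disjoint (S q a) (tr (cyc q a h) (seg n r)) := by
  have hsub : ∀ σ ∈ seg n r, (∀ i, i < q → σ i = i) ∧ σ q = q := by
    intro σ hσ
    have h1 : σ ∈ seg n (1 * k.factorial) := seg_mono (by omega) hσ
    rw [seg_S hq (by omega), mem_S] at h1
    refine ⟨h1.1, ?_⟩
    have h2 := ge_of_fix h1.1 (le_refl q)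
    apply Fin.ext
    have h3 : (q : ℕ) ≤ σ q := h2
    omega
  have htr : ∀ σ ∈ tr (cyc q a h) (seg n r), (∀ i, i < q → σ i = i) ∧ (σ q : ℕ) = q + a := by
    intro σ hσ
    rw [mem_tr] at hσ
    obtain ⟨h1, h2⟩ := hsub _ hσ
    have h3 : ∀ i, σ i = cyc q a h (((cyc q a h)⁻¹ * σ) i) := by
      intro i; simp
    constructor
    · intro i hi
      rw [h3 i, h1 i hi, cyc_fix hi]
    · rw [h3 q, h2, cyc_self]
  have hd : Disjoint (S q a) (tr (cyc q a h) (seg n r)) := by
    rw [disjoint_left]
    intro σ h1 h2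
    rw [mem_S] at h1
    have := (htr σ h2).2
    omega
  refine ⟨?_, hd⟩
  apply seg_eq
  · intro σ hσ π hπ
    rw [mem_union] at hσ ⊢
    rcases hσ with hσ | hσ
    · left; exact S_down hσ hπ
    · obtain ⟨h1, h2⟩ := htr σ hσ
      have h3 : σ ∈ S q (a + 1) := by
        rw [mem_S]; exact ⟨h1, by omega⟩
      have h4 := S_down h3 hπ
      rw [mem_S] at h4
      rcases Nat.lt_or_ge (π q : ℕ) (q + a) with h5 | h5
      · left; rw [mem_S]; exact ⟨h4.1, h5⟩
      · right
        have h6 : (π q : ℕ) = q + a := by omega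
        have h7 : π q = σ q := Fin.ext (h6.trans h2.symm)
        rw [mem_tr] at hσ ⊢
        refine seg_down hσ ?_
        obtain ⟨j, hj, hj'⟩ := hπ
        have hjq : q < j := by
          by_contra hc
          push Not at hc
          rcases hc.eq_or_lt with h8 | h8
          · rw [h8, h7] at hj'
            exact absurd hj' (lt_irrefl _)
          · rw [h4.1 j h8, h1 j h8] at hj'
            exact absurd hj' (lt_irrefl _)
        refine ⟨j, fun i hi => ?_, ?_⟩
        · rw [Perm.mul_apply, Perm.mul_apply, hj i hi]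
        · have e1 : cyc q a h (((cyc q a h)⁻¹ * π) j) = π j := by simp
          have e2 : cyc q a h (((cyc q a h)⁻¹ * σ) j) = σ j := by simp
          have hcyc : cyc q a h q = σ q := Fin.ext (by rw [cyc_self, h2])
          rw [← cyc_lt (h := h), e1, e2]
          · exact hj'
          · intro h9
            have : π j = π q := by rw [← e1, h9, hcyc, h7]
            exact hjq.ne' (π.injective this)
          · intro h9
            have : σ j = σ q := by rw [← e2, h9, hcyc]
            exact hjq.ne' (σ.injective this)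
  · rw [card_union_of_disjoint hd, card_tr, hcard, card_S hq (by omega)]

/-- number of internal neighbours in `S q a` of a permutation with `σ q = q + a` -/
lemma cross_S {q : Fin n} {a : ℕ} {σ : Perm (Fin n)} (h1 : ∀ i, i < q → σ i = i)
    (h2 : (σ q : ℕ) = q + a) :
    a ≤ ((P n).filter (fun t => σ * swap t.1 t.2 ∈ S q a)).card := by
  classical
  have hlt : (q : ℕ) + a < n := by rw [← h2]; exact (σ q).isLt
  have hcount : (univ.filter (fun r : Fin n => q < r ∧ (σ r : ℕ) < q + a)).card = a := by
    have h3 : (univ.filter (fun r : Fin n => (σ r : ℕ) < q + a)).card = q + a := by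
      have h4 : (univ.filter (fun r : Fin n => (σ r : ℕ) < q + a)).card
          = (univ.filter (fun r : Fin n => (r : ℕ) < q + a)).card := by
        refine card_bij' (fun r _ => σ r) (fun r _ => σ.symm r) ?_ ?_ ?_ ?_
        · intro r hr; simpa using hr
        · intro r hr; simpa using hr
        · intro r _; simp
        · intro r _; simp
      rw [h4, Fin.card_filter_val_lt]
      omega
    have h4 : (univ.filter (fun r : Fin n => (σ r : ℕ) < q + a))
        = (univ.filter (fun r : Fin n => q < r ∧ (σ r : ℕ) < q + a)) ∪ Iio q := by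
      ext r
      simp only [mem_filter, mem_univ, true_and, mem_union, mem_Iio]
      constructor
      · intro h
        rcases lt_trichotomy r q with h4 | h4 | h4
        · right; exact h4
        · subst h4; omega
        · left; exact ⟨h4, h⟩
      · rintro (⟨_, h⟩ | h)
        · exact h
        · rw [h1 r h]
          have h5 : (r : ℕ) < q := h
          omega
    have h5 : Disjoint (univ.filter (fun r : Fin n => q < r ∧ (σ r : ℕ) < q + a)) (Iio q) := by
      rw [disjoint_left]
      intro r h5 h6
      simp only [mem_filter, mem_univ, true_and, mem_Iio] at h5 h6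
      exact absurd h5.1 (not_lt.2 h6.le)
    rw [h4, card_union_of_disjoint h5, Fin.card_Iio] at h3
    omega
  have hinj : Function.Injective (fun r : Fin n => (q, r)) := by
    intro r s h
    simpa using h
  calc a = (univ.filter (fun r : Fin n => q < r ∧ (σ r : ℕ) < q + a)).card := hcount.symm
    _ = ((univ.filter (fun r : Fin n => q < r ∧ (σ r : ℕ) < q + a)).image
          (fun r : Fin n => (q, r))).card := (card_image_of_injective _ hinj).symm
    _ ≤ _ := by
      refine card_le_card ?_
      intro t ht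
      rw [mem_image] at ht
      obtain ⟨r, hr, rfl⟩ := ht
      simp only [mem_filter, mem_univ, true_and] at hr
      rw [mem_filter, mem_P, mem_S]
      refine ⟨hr.1, ?_, ?_⟩
      · intro i hi
        rw [Perm.mul_apply, swap_apply_of_ne_of_ne hi.ne (hi.trans hr.1).ne, h1 i hi]
      · rw [Perm.mul_apply, swap_apply_left]
        exact hr.2

/-- `x ↦ {x}(1-{x})` -/
def phi (x : ℚ) : ℚ := Int.fract x * (1 - Int.fract x)

/-- `δ_k(m) = ∑_{i ≤ k} (i-1) i! φ(m/i!)` -/
def delta (k : ℕ) (m : ℕ) : ℚ :=
  ∑ i ∈ range (k + 1), ((i : ℚ) - 1) * (i.factorial : ℚ) * phi ((m : ℚ) / (i.factorial : ℚ))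

lemma phi_nonneg (x : ℚ) : 0 ≤ phi x := by
  unfold phi
  exact mul_nonneg (Int.fract_nonneg x) (by linarith [Int.fract_lt_one x])

lemma phi_add_nat (x : ℚ) (c : ℕ) : phi (c + x) = phi x := by
  unfold phi
  rw [Int.fract_natCast_add]

lemma phi_nat (c : ℕ) : phi (c : ℚ) = 0 := by
  unfold phi
  simp

lemma phi_add_mul {i k a r : ℕ} (hik : i ≤ k) :
    phi (((a * k.factorial + r : ℕ) : ℚ) / (i.factorial : ℚ)) = phi ((r : ℚ) / (i.factorial : ℚ)) := by
  obtain ⟨c, hc⟩ := Nat.factorial_dvd_factorial hik
  have h1 : ((a * k.factorial + r : ℕ) : ℚ) / (i.factorial : ℚ)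
      = ((a * c : ℕ) : ℚ) + (r : ℚ) / (i.factorial : ℚ) := by
    rw [hc]
    have := fact_pos i
    push_cast
    field_simp
  rw [h1, phi_add_nat]

lemma delta_add {k a r : ℕ} : delta k (a * k.factorial + r) = delta k r := by
  unfold delta
  refine sum_congr rfl fun i hi => ?_
  rw [mem_range] at hi
  rw [phi_add_mul (by omega)]

lemma delta_zero (k : ℕ) : delta k 0 = 0 := by
  unfold delta
  refine sum_eq_zero fun i _ => ?_
  have h : phi (((0 : ℕ) : ℚ) / (i.factorial : ℚ)) = 0 := by
    have := phi_nat 0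
    simpa using this
  rw [h, mul_zero]

/-- the recursion for `L_k - δ_k` -/
lemma D_rec {k a r : ℕ} (hr : r < (k + 1).factorial) :
    L (k + 1) ((a * (k + 1).factorial + r : ℕ) : ℚ) - delta (k + 1) (a * (k + 1).factorial + r)
      = L (k + 1) ((a * (k + 1).factorial : ℕ) : ℚ) + (L k (r : ℚ) - delta k r) + 2 * a * r := by
  rw [delta_add]
  have h1 : delta (k + 1) r = delta k r
      + ((k + 1 : ℕ) - 1 : ℚ) * ((k + 1).factorial : ℚ) * phi ((r : ℚ) / ((k + 1).factorial : ℚ)) := by
    unfold delta
    rw [sum_range_succ]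
  have hF := fact_pos (k + 1)
  have h2 : phi ((r : ℚ) / ((k + 1).factorial : ℚ))
      = (r : ℚ) / ((k + 1).factorial : ℚ) * (1 - (r : ℚ) / ((k + 1).factorial : ℚ)) := by
    unfold phi
    have h3 : Int.fract ((r : ℚ) / ((k + 1).factorial : ℚ)) = (r : ℚ) / ((k + 1).factorial : ℚ) := by
      rw [Int.fract_eq_self]
      refine ⟨by positivity, ?_⟩
      rw [div_lt_one hF]
      exact_mod_cast hr
    rw [h3]
  have h4 := L_succ k (r : ℚ)
  have h5 : L (k + 1) ((a * (k + 1).factorial + r : ℕ) : ℚ)
      = L (k + 1) ((a * (k + 1).factorial : ℕ) : ℚ) + L (k + 1) (r : ℚ) + 2 * a * r := by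
    unfold L
    push_cast
    field_simp
    ring
  rw [h1, h2, h5]
  have h6 : ((k + 1 : ℕ) - 1 : ℚ) * ((k + 1).factorial : ℚ)
      * ((r : ℚ) / ((k + 1).factorial : ℚ) * (1 - (r : ℚ) / ((k + 1).factorial : ℚ)))
      = (r : ℚ) * k * (1 - (r : ℚ) / ((k + 1).factorial : ℚ)) := by
    push_cast
    field_simp
    ring
  rw [h6]
  linarith

lemma cr_S' {q : Fin n} {a k : ℕ} (hq : (q : ℕ) + k + 1 = n) (ha : a ≤ k + 1) :
    L k ((a * k.factorial : ℕ) : ℚ) ≤ cr (S q a) (S q a) := by
  rcases Nat.eq_zero_or_pos a with h | h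
  · subst h
    simp [L]
  · exact cr_S hq ha h

theorem seg_edges (k : ℕ) (hkn : k < n) (m : ℕ) (hm : m ≤ (k + 1).factorial) :
    (seg n m).card = m ∧ L k (m : ℚ) - delta k m ≤ cr (seg n m) (seg n m) := by
  induction k generalizing m with
  | zero =>
    have hq : ((⟨n - 1, by omega⟩ : Fin n) : ℕ) + 0 + 1 = n := by
      simp; omega
    have hm1 : m = m * Nat.factorial 0 := by simp
    have hm2 : m ≤ 0 + 1 := by simpa using hm
    have h1 : seg n m = S (⟨n - 1, by omega⟩ : Fin n) m := by
      have := seg_S hq hm2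
      rw [← hm1] at this
      exact this
    have h2 := cr_S' hq hm2
    rw [← hm1, ← h1] at h2
    have h3 := card_S hq hm2
    rw [← hm1, ← h1] at h3
    refine ⟨h3, ?_⟩
    have h4 : 0 ≤ delta 0 m := by
      unfold delta
      rw [sum_range_one]
      have : phi ((m : ℚ) / (Nat.factorial 0 : ℚ)) = 0 := by
        have := phi_nat m
        simpa using this
      rw [this, mul_zero]
    linarith
  | succ k ih =>
    have hq : ((⟨n - (k + 1) - 1, by omega⟩ : Fin n) : ℕ) + (k + 1) + 1 = n := by
      simp; omega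
    obtain ⟨q, hqv⟩ : ∃ q : Fin n, q = ⟨n - (k + 1) - 1, by omega⟩ := ⟨_, rfl⟩
    rw [← hqv] at hq
    have hFpos := Nat.factorial_pos (k + 1)
    obtain ⟨a, ha⟩ : ∃ a, a = m / (k + 1).factorial := ⟨_, rfl⟩
    obtain ⟨r, hr⟩ : ∃ r, r = m % (k + 1).factorial := ⟨_, rfl⟩
    have hmar : m = a * (k + 1).factorial + r := by
      rw [ha, hr, mul_comm]
      exact (Nat.div_add_mod m _).symm
    have hrlt : r < (k + 1).factorial := by rw [hr]; exact Nat.mod_lt _ hFpos
    have hale : a ≤ k + 2 := by
      rw [ha]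
      apply Nat.div_le_of_le_mul
      rw [mul_comm, ← Nat.factorial_succ]
      exact hm
    rcases Nat.eq_zero_or_pos r with hr0 | hr0
    · have hm' : m = a * (k + 1).factorial := by rw [hmar, hr0, add_zero]
      rw [hm', seg_S hq hale]
      refine ⟨card_S hq hale, ?_⟩
      have h1 := cr_S' hq hale
      have h2 : delta (k + 1) (a * (k + 1).factorial) = 0 := by
        have := delta_add (k := k + 1) (a := a) (r := 0)
        rw [add_zero, delta_zero] at this
        exact this
      rw [h2]
      linarith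
    · have hak : a ≤ k + 1 := by
        by_contra hc
        push Not at hc
        have h1 : (k + 2) * (k + 1).factorial ≤ a * (k + 1).factorial :=
          Nat.mul_le_mul_right _ (by omega)
        rw [← Nat.factorial_succ] at h1
        omega
      have hqa : (q : ℕ) + a < n := by omega
      obtain ⟨ih1, ih2⟩ := ih (by omega) r hrlt.le
      obtain ⟨h1, h2⟩ := seg_step hq hak hrlt.le ih1 hqa
      rw [hmar, h1]
      constructor
      · rw [card_union_of_disjoint h2, card_tr, ih1, card_S hq hale]
      · rw [cr_self_union h2, cr_tr, D_rec hrlt]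
        have h3 := cr_S' hq hale
        have h4 : a * r ≤ cr (tr (cyc q a hqa) (seg n r)) (S q a) := by
          have h5 : r = (tr (cyc q a hqa) (seg n r)).card := by rw [card_tr, ih1]
          have h6 : ∀ σ ∈ tr (cyc q a hqa) (seg n r),
              a ≤ ((P n).filter (fun t => σ * swap t.1 t.2 ∈ S q a)).card := by
            intro σ hσ
            rw [mem_tr] at hσ
            have h7 : (cyc q a hqa)⁻¹ * σ ∈ seg n (1 * (k + 1).factorial) :=
              seg_mono (by omega) hσ
            rw [seg_S hq (by omega), mem_S] at h7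
            have h8 := ge_of_fix h7.1 (le_refl q)
            have h9 : ((cyc q a hqa)⁻¹ * σ) q = q := by
              apply Fin.ext
              have h3 : (q : ℕ) ≤ ((cyc q a hqa)⁻¹ * σ) q := h8
              omega
            have h3 : ∀ i, σ i = cyc q a hqa (((cyc q a hqa)⁻¹ * σ) i) := by
              intro i; simp
            apply cross_S
            · intro i hi
              rw [h3 i, h7.1 i hi, cyc_fix hi]
            · rw [h3 q, h9, cyc_self]
          calc a * r = a * (tr (cyc q a hqa) (seg n r)).card := by rw [← h5]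
            _ = ∑ σ ∈ tr (cyc q a hqa) (seg n r), a := by
              rw [sum_const, smul_eq_mul, mul_comm]
            _ ≤ _ := by
              unfold cr
              exact sum_le_sum h6
        have h5 : ((a * r : ℕ) : ℚ)
            ≤ (cr (tr (cyc q a hqa) (seg n r)) (S q a) : ℚ) := by exact_mod_cast h4
        push_cast at h5 h3 ⊢
        linarith

theorem near_optimal (k : ℕ) (A : Finset (Perm (Fin n))) (hA : A.card ≤ (k + 1).factorial) :
    (bd (seg n A.card) : ℚ) ≤ bd A + delta k A.card := by
  have hAle : A.card ≤ n.factorial := by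
    have := card_le_univ A
    rwa [Fintype.card_perm, Fintype.card_fin] at this
  have hdelta_nonneg : ∀ k m, 0 ≤ delta k m := by
    intro k m
    unfold delta
    refine sum_nonneg fun i _ => ?_
    rcases Nat.eq_zero_or_pos i with h | h
    · subst h
      have : phi ((m : ℚ) / (Nat.factorial 0 : ℚ)) = 0 := by
        have := phi_nat m
        simpa using this
      rw [this, mul_zero]
    · have h1 : (1 : ℚ) ≤ i := by exact_mod_cast h
      have h2 := phi_nonneg ((m : ℚ) / (i.factorial : ℚ))
      have h3 := fact_pos i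
      have h4 : (0 : ℚ) ≤ (i : ℚ) - 1 := by linarith
      positivity
  have core : ∀ k, 1 ≤ k → k < n → A.card ≤ (k + 1).factorial →
      (bd (seg n A.card) : ℚ) ≤ bd A + delta k A.card := by
    intro k hk hkn hA
    obtain ⟨h1, h2⟩ := seg_edges k hkn A.card hA
    have h3 := bound_bd A k hk
    have h4 := bd_add_cr (seg n A.card)
    rw [h1] at h4
    have h5 : (bd (seg n A.card) : ℚ) + cr (seg n A.card) (seg n A.card)
        = (n.choose 2 : ℕ) * (A.card : ℚ) := by exact_mod_cast h4
    linarith
  have hmono : ∀ k k' m, k ≤ k' → delta k m ≤ delta k' m := by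
    intro k k' m h
    unfold delta
    refine sum_le_sum_of_subset_of_nonneg ?_ ?_
    · intro i hi
      rw [mem_range] at hi ⊢
      omega
    · intro i hi1 hi2
      rw [mem_range] at hi1 hi2
      have h1 : (1 : ℚ) ≤ i := by
        have : 1 ≤ i := by omega
        exact_mod_cast this
      have h2 := phi_nonneg ((m : ℚ) / (i.factorial : ℚ))
      have h3 := fact_pos i
      have h4 : (0 : ℚ) ≤ (i : ℚ) - 1 := by linarith
      positivity
  -- trivial sizes
  rcases Nat.lt_or_ge n 2 with hn | hn
  · have h1 : n.factorial = 1 := by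
      interval_cases n <;> simp
    rcases Nat.eq_zero_or_pos A.card with h0 | h0
    · rw [h0, seg_zero, bd_empty]
      have := hdelta_nonneg k 0
      push_cast
      positivity
    · have h2 : A.card = n.factorial := by omega
      rw [h2, seg_full, bd_univ]
      have := hdelta_nonneg k n.factorial
      push_cast
      positivity
  rcases Nat.eq_zero_or_pos k with hk | hk
  · subst hk
    have h1 : A.card ≤ (1 + 1).factorial := hA.trans (Nat.factorial_le (by omega))
    have h2 := core 1 le_rfl (by omega) h1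
    have h3 : delta 1 A.card = delta 0 A.card := by
      unfold delta
      rw [sum_range_succ]
      simp
    rwa [h3] at h2
  · rcases Nat.lt_or_ge k n with hkn | hkn
    · exact core k hk hkn hA
    · have h1 : A.card ≤ (n - 1 + 1).factorial := by
        have : n - 1 + 1 = n := by omega
        rw [this]; exact hAle
      have h2 := core (n - 1) (by omega) (by omega) h1
      have h3 := hmono (n - 1) k A.card (by omega)
      linarith

end Pool.Agent.Helper93.Transp
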